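import Pool.Agent.H906R3.Final

set_option autoImplicit false

open Finset

namespace Pool.Agent.H906R3

open Pool.Agent.H396R2

/-- Abel summation for the geometric weights -/
lemma abel_weights {x : ℝ} (hx0 : 0 < x) (hx1 : x < 1) (c : ℕ → ℝ) (C : ℝ)
    (hC : ∀ N, ∑ n ∈ range N, c n ≤ C) (N : ℕ) :
    ∑ n ∈ range (N + 1), x ^ (2 * n) * c n ≤ C := by
  have h1 := abel_ineq (fun n => x ^ (2 * n)) c
    (fun n => pow_le_pow_of_le_one hx0.le hx1.le (by omega)) (fun n => by positivity) C hC N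
  simpa using h1

/-- the contradiction behind the main theorem -/
theorem core (g : ℕ) (A : Set ℕ) (n0 : ℕ) (hbasis : ∀ n ≥ n0, 1 ≤ rep A (g + 2) n) (K0 : ℕ)
    (hK0 : ∀ n, rep A (g + 2) n ≤ K0) (P : ℕ → ℝ) (hP0 : ∀ n, 0 ≤ P n) (hP1 : ∀ n, P n ≤ K0)
    (hrig : MeanSqRigid (1 - 1 / ((g : ℝ) + 2)) P) (κ : ℝ) (hκ0 : 0 ≤ κ)
    (hκ : κ < 1 - 1 / ((g : ℝ) + 2)) (N2 : ℕ)
    (hclose : ∀ N ≥ N2, ∑ n ∈ range N, ((rep A (g + 2) n : ℝ) - P n) ^ 2 ≤
      κ * ∑ n ∈ range N, (rep A (g + 2) n : ℝ)) : False := by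
  classical
  have hK01 : 1 ≤ K0 := (hbasis n0 le_rfl).trans (hK0 n0)
  have hK0' : (1 : ℝ) ≤ K0 := by exact_mod_cast hK01
  obtain ⟨hh, hhdef⟩ : ∃ hh : ℝ, hh = (g : ℝ) + 2 := ⟨_, rfl⟩
  have hg0 : (0 : ℝ) ≤ g := Nat.cast_nonneg g
  have hhh : 2 ≤ hh := by linarith
  have hh0 : 0 < hh := by linarith
  rw [← hhdef] at hrig hκ
  obtain ⟨β, hβ⟩ : ∃ β : ℝ, β = (hh - 1) / hh := ⟨_, rfl⟩
  have hβ' : β = 1 - 1 / hh := by rw [hβ]; field_simp
  obtain ⟨gap, hgap⟩ : ∃ gap : ℝ, gap = β - κ := ⟨_, rfl⟩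
  have hgap0 : 0 < gap := by rw [hgap, hβ']; linarith
  have hβ1 : β ≤ 1 := by rw [hβ, div_le_one hh0]; linarith
  have hgap1 : gap ≤ 1 := by linarith
  obtain ⟨θ, hθ⟩ : ∃ θ : ℝ, θ = gap / 12 := ⟨_, rfl⟩
  have hθ0 : 0 < θ := by rw [hθ]; positivity
  have hθ12 : θ ≤ 1 / 12 := by rw [hθ]; linarith
  obtain ⟨D, hD⟩ : ∃ D : ℝ, D = (hh - 1) + (1 + θ) ^ 2
      + (1 + θ) * (1 + θ⁻¹) * ((hh - 1) * K0 + 1) + 12 * (1 + θ⁻¹) := ⟨_, rfl⟩
  have hD0 : 0 < D := by
    have h1 : 0 ≤ (hh - 1) * (K0 : ℝ) := mul_nonneg (by linarith) (by linarith)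
    have h2 : 0 ≤ (1 + θ) * (1 + θ⁻¹) * ((hh - 1) * K0 + 1) := by positivity
    have h3 : 0 ≤ 12 * (1 + θ⁻¹) := by positivity
    have h4 : 0 < (1 + θ) ^ 2 := by positivity
    rw [hD]; linarith
  obtain ⟨s, hs⟩ : ∃ s : ℝ, s = gap / (8 * D) := ⟨_, rfl⟩
  have hs0 : 0 < s := by rw [hs]; positivity
  have hDs : D * s < gap / 4 := by
    rw [hs]
    have : D * (gap / (8 * D)) = gap / 8 := by field_simp
    rw [this]; linarith
  -- the shifts
  obtain ⟨C, hC⟩ : ∃ C : ℝ, C = 16 * hh * K0 / θ + 2 * n0 + 1 := ⟨_, rfl⟩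
  have hCa : 16 * hh * K0 / θ ≤ C := by
    rw [hC]
    have : (0 : ℝ) ≤ n0 := Nat.cast_nonneg _
    linarith
  have hCb : 2 * (n0 : ℝ) + 1 ≤ C := by
    rw [hC]
    have : 0 ≤ 16 * hh * (K0 : ℝ) / θ := by positivity
    linarith
  have hC0 : 0 < C := by
    have : (0 : ℝ) ≤ n0 := Nat.cast_nonneg _
    linarith
  obtain ⟨Mw, S, hMw1, hSsub, hScard, hSper⟩ := hrig (s / 2) (by positivity) C
  have hMwr : (1 : ℝ) ≤ Mw := by exact_mod_cast hMw1
  have hMw0 : (0 : ℝ) < Mw := by linarith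
  have hih : 1 / hh ≤ 1 := by rw [div_le_one hh0]; linarith
  have hih0 : 0 < 1 / hh := by positivity
  have hSM : (S.card : ℝ) ≤ Mw := by
    have := Finset.card_le_card hSsub
    rw [card_range] at this
    exact_mod_cast this
  have hpow : (Mw : ℝ) ^ (1 - 1 / hh) * (Mw : ℝ) ^ (1 / hh) = Mw := by
    rw [← Real.rpow_add hMw0]
    rw [sub_add_cancel, Real.rpow_one]
  have hMwC : C ≤ Mw := by
    have h1 : C * (Mw : ℝ) ^ (1 - 1 / hh) ≤ (Mw : ℝ) ^ (1 / hh) * (Mw : ℝ) ^ (1 - 1 / hh) := by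
      rw [mul_comm ((Mw : ℝ) ^ (1 / hh)), hpow]
      exact hScard.trans hSM
    have h2 := le_of_mul_le_mul_right h1 (by positivity)
    calc C ≤ (Mw : ℝ) ^ (1 / hh) := h2
      _ ≤ (Mw : ℝ) ^ (1 : ℝ) := Real.rpow_le_rpow_of_exponent_le hMwr hih
      _ = Mw := Real.rpow_one _
  have hMwn0 : 2 * n0 + 1 ≤ Mw := by exact_mod_cast hCb.trans hMwC
  set L := S.card with hL
  have hL0 : 0 < L := by
    have : (0 : ℝ) < L := lt_of_lt_of_le (by positivity) hScard
    exact_mod_cast this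
  obtain ⟨τ, hτdef⟩ : ∃ τ : ℕ → ℕ, ∀ i (hi : i < L), τ i = S.orderEmbOfFin hL.symm ⟨i, hi⟩ := by
    refine ⟨fun i => if hi : i < L then S.orderEmbOfFin hL.symm ⟨i, hi⟩ else 0, fun i hi => ?_⟩
    simp only [hi, dite_true]
  have hτS : ∀ i < L, τ i ∈ S := fun i hi => by
    rw [hτdef i hi]
    exact Finset.orderEmbOfFin_mem S hL.symm _
  have hτM : ∀ i < L, τ i < Mw := fun i hi => Finset.mem_range.1 (hSsub (hτS i hi))
  have hinj : ∀ i < L, ∀ j < L, τ i = τ j → i = j := by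
    intro i hi j hj h
    rw [hτdef i hi, hτdef j hj] at h
    have := (S.orderEmbOfFin hL.symm).injective h
    exact congrArg Fin.val this
  obtain ⟨N0, hN0⟩ : ∃ N0 : ℕ, ∀ N ≥ N0, ∀ t ∈ S,
      ∑ n ∈ range N, (P (n + t) - P n) ^ 2 ≤ s / 2 * N := by
    have := (Filter.eventually_all_finset S).2 hSper
    rw [Filter.eventually_atTop] at this
    exact this
  -- number of elements below Mw
  obtain ⟨cA, hcA⟩ : ∃ cA : ℕ, cA = ((range Mw).filter (fun a => a ∈ A)).card := ⟨_, rfl⟩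
  have hcount : (Mw : ℝ) / 2 ≤ (cA : ℝ) ^ (g + 2) := by
    have h1 := count_lower A (g + 2) n0 hbasis Mw
    rw [← hcA] at h1
    have h2 : Mw ≤ 2 * cA ^ (g + 2) := by omega
    have h3 : (Mw : ℝ) ≤ 2 * (cA : ℝ) ^ (g + 2) := by exact_mod_cast h2
    linarith
  have hcA1 : (Mw : ℝ) ^ (1 / hh) / 2 ≤ cA := by
    have h1 : ((Mw : ℝ) / 2) ^ (1 / hh) ≤ cA := by
      calc ((Mw : ℝ) / 2) ^ (1 / hh) ≤ ((cA : ℝ) ^ (g + 2)) ^ (1 / hh) :=
            Real.rpow_le_rpow (by positivity) hcount (by positivity)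
        _ = cA := by
            rw [← Real.rpow_natCast, ← Real.rpow_mul (Nat.cast_nonneg _)]
            have : ((g + 2 : ℕ) : ℝ) * (1 / hh) = 1 := by
              rw [hhdef]; push_cast; field_simp
            rw [this, Real.rpow_one]
    have h2 : (Mw : ℝ) ^ (1 / hh) / 2 ≤ ((Mw : ℝ) / 2) ^ (1 / hh) := by
      rw [Real.div_rpow (by positivity) (by norm_num)]
      apply div_le_div_of_nonneg_left (by positivity) (by positivity)
      calc (2 : ℝ) ^ (1 / hh) ≤ (2 : ℝ) ^ (1 : ℝ) :=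
            Real.rpow_le_rpow_of_exponent_le (by norm_num) hih
        _ = 2 := Real.rpow_one _
    exact h2.trans h1
  have hcA0 : (0 : ℝ) < cA := lt_of_lt_of_le (by positivity) hcA1
  obtain ⟨W, hWdef⟩ : ∃ W : ℝ, W = hh * (2 * Mw * K0) / cA := ⟨_, rfl⟩
  have hWε : 4 * W ≤ θ * L := by
    have h1 : C * (Mw : ℝ) / 2 ≤ L * cA := by
      calc C * (Mw : ℝ) / 2 = (C * (Mw : ℝ) ^ (1 - 1 / hh)) * ((Mw : ℝ) ^ (1 / hh) / 2) := by
            rw [← hpow]
            rw [hpow]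
            have : (C * (Mw : ℝ) ^ (1 - 1 / hh)) * ((Mw : ℝ) ^ (1 / hh) / 2)
              = C * ((Mw : ℝ) ^ (1 - 1 / hh) * (Mw : ℝ) ^ (1 / hh)) / 2 := by ring
            rw [this, hpow]
        _ ≤ L * cA := mul_le_mul hScard hcA1 (by positivity) (Nat.cast_nonneg _)
    have h2 : 16 * hh * K0 ≤ C * θ := by
      rw [div_le_iff₀ hθ0] at hCa
      exact hCa
    rw [hWdef]
    have h3 : 4 * (hh * (2 * Mw * K0) / cA) = (8 * hh * Mw * K0) / cA := by ring
    rw [h3, div_le_iff₀ hcA0]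
    have h4 := mul_le_mul_of_nonneg_left h1 hθ0.le
    have h5 := mul_le_mul_of_nonneg_right h2 hMw0.le
    linarith
  -- A is infinite: finite pieces with many elements
  have hmany : ∀ m : ℕ, ∃ X : ℕ, m ≤ ((range X).filter (fun a => a ∈ A)).card := by
    intro m
    by_contra hcon
    push Not at hcon
    have h1 := count_lower A (g + 2) n0 hbasis (n0 + m ^ (g + 2) + 1)
    have h2 := Nat.pow_le_pow_left (hcon (n0 + m ^ (g + 2) + 1)).le (g + 2)
    omega
  obtain ⟨m2, hm2⟩ := exists_nat_gt (2 * (g / θ + hh * K0 / s))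
  obtain ⟨X0, hX0⟩ := hmany m2
  obtain ⟨C2, hC2⟩ : ∃ C2 : ℝ, C2 = N2 * (K0 : ℝ) ^ 2 := ⟨_, rfl⟩
  have hC20 : 0 ≤ C2 := by rw [hC2]; positivity
  obtain ⟨M1, hM1⟩ : ∃ M1 : ℝ, M1 = 2 * (1 + n0) + (κ * K0 + C2 + (K0 : ℝ) ^ 2 + Mw * (K0 : ℝ) ^ 2
    + 2 * N0 * (K0 : ℝ) ^ 2) / s := ⟨_, rfl⟩
  have hM10 : 0 < M1 := by rw [hM1]; positivity
  -- choose x
  obtain ⟨x, hx0, hx1, hxQ, hxM, hxz⟩ : ∃ x : ℝ, 0 < x ∧ x < 1 ∧ 1 / 2 ≤ x ^ (Mw + 2 * X0) ∧
      M1 ≤ (1 - x ^ 2)⁻¹ ∧ (1 - x ^ Mw) * (K0 : ℝ) ^ 2 ≤ s := by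
    have hc : Filter.Tendsto (fun x : ℝ => x ^ (Mw + 2 * X0)) (nhdsWithin 1 (Set.Iio 1))
        (nhds 1) := by
      have : Filter.Tendsto (fun x : ℝ => x ^ (Mw + 2 * X0)) (nhds 1) (nhds (1 ^ (Mw + 2 * X0))) :=
        (continuous_pow _).tendsto 1
      rw [one_pow] at this
      exact this.mono_left nhdsWithin_le_nhds
    have hc2 : Filter.Tendsto (fun x : ℝ => 1 - x ^ 2) (nhdsWithin 1 (Set.Iio 1))
        (nhds 0) := by
      have : Filter.Tendsto (fun x : ℝ => 1 - x ^ 2) (nhds 1) (nhds (1 - 1 ^ 2)) :=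
        (continuous_const.sub (continuous_pow 2)).tendsto 1
      rw [one_pow, sub_self] at this
      exact this.mono_left nhdsWithin_le_nhds
    have hc3 : Filter.Tendsto (fun x : ℝ => (1 - x ^ Mw) * (K0 : ℝ) ^ 2)
        (nhdsWithin 1 (Set.Iio 1)) (nhds 0) := by
      have : Filter.Tendsto (fun x : ℝ => (1 - x ^ Mw) * (K0 : ℝ) ^ 2) (nhds 1)
          (nhds ((1 - 1 ^ Mw) * (K0 : ℝ) ^ 2)) :=
        ((continuous_const.sub (continuous_pow Mw)).mul continuous_const).tendsto 1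
      rw [one_pow, sub_self, zero_mul] at this
      exact this.mono_left nhdsWithin_le_nhds
    have e1 : ∀ᶠ x : ℝ in nhdsWithin 1 (Set.Iio 1), 1 / 2 < x ^ (Mw + 2 * X0) :=
      hc.eventually (lt_mem_nhds (by norm_num))
    have e2 : ∀ᶠ x : ℝ in nhdsWithin 1 (Set.Iio 1), 1 - x ^ 2 < M1⁻¹ :=
      hc2.eventually (gt_mem_nhds (by positivity))
    have e3 : ∀ᶠ x : ℝ in nhdsWithin 1 (Set.Iio 1), 0 < x :=
      (lt_mem_nhds (by norm_num : (0 : ℝ) < 1)).filter_mono nhdsWithin_le_nhds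
    have e4 : ∀ᶠ x : ℝ in nhdsWithin 1 (Set.Iio 1), x < 1 := self_mem_nhdsWithin
    have e5 : ∀ᶠ x : ℝ in nhdsWithin 1 (Set.Iio 1), (1 - x ^ Mw) * (K0 : ℝ) ^ 2 < s :=
      hc3.eventually (gt_mem_nhds hs0)
    obtain ⟨x, h1, h2, h3, h4, h5⟩ := (e1.and (e2.and (e3.and (e4.and e5)))).exists
    refine ⟨x, h3, h4, h1.le, ?_, h5.le⟩
    have h6 : 0 < 1 - x ^ 2 := by nlinarith
    rw [← inv_inv M1]
    exact inv_anti₀ h6 h2.le
  have hx2 : 0 < 1 - x ^ 2 := by nlinarith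
  obtain ⟨M, hM⟩ : ∃ M : ℝ, M = (1 - x ^ 2)⁻¹ := ⟨_, rfl⟩
  have hMpos : 0 < M := by rw [hM]; positivity
  have hMbig : M1 ≤ M := by rw [hM]; exact hxM
  have hsMbig : κ * K0 + C2 + (K0 : ℝ) ^ 2 + Mw * (K0 : ℝ) ^ 2 + 2 * N0 * (K0 : ℝ) ^ 2 ≤ s * M := by
    have h1 : (κ * K0 + C2 + (K0 : ℝ) ^ 2 + Mw * (K0 : ℝ) ^ 2
      + 2 * N0 * (K0 : ℝ) ^ 2) / s ≤ M := by
      refine le_trans ?_ hMbig
      rw [hM1]
      have : (0 : ℝ) ≤ 2 * (1 + n0) := by positivity
      linarith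
    rw [div_le_iff₀ hs0] at h1
    linarith
  have hMn0 : 2 * (1 + (n0 : ℝ)) ≤ M := by
    refine le_trans ?_ hMbig
    rw [hM1]
    have : 0 ≤ (κ * K0 + C2 + (K0 : ℝ) ^ 2 + Mw * (K0 : ℝ) ^ 2
      + 2 * N0 * (K0 : ℝ) ^ 2) / s := by positivity
    linarith
  -- choose T
  obtain ⟨T, hTL, hTX, hxT⟩ : ∃ T : ℕ, Mw ≤ T ∧ X0 ≤ T ∧ x ^ (2 * (T + 1)) ≤ 1 - x ^ 2 := by
    obtain ⟨T0, hT0⟩ := exists_pow_lt_of_lt_one hx2 (show x ^ 2 < 1 by nlinarith)
    refine ⟨Mw + X0 + T0, by omega, by omega, ?_⟩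
    have : x ^ (2 * (Mw + X0 + T0 + 1)) ≤ x ^ (2 * T0) :=
      pow_le_pow_of_le_one hx0.le hx1.le (by omega)
    rw [pow_mul x 2 T0] at this
    linarith
  -- the finite set
  set F : Finset ℕ := (range (T + 1)).filter (fun a => a ∈ A) with hFdef
  have hF : ∀ a, a ∈ F ↔ a ∈ A ∧ a ≤ T := by
    intro a
    rw [hFdef, Finset.mem_filter, Finset.mem_range]
    constructor
    · rintro ⟨h1, h2⟩; exact ⟨h2, by omega⟩
    · rintro ⟨h1, h2⟩; exact ⟨by omega, h1⟩
  have hFT : ∀ a ∈ F, a ≤ T := fun a ha => ((hF a).1 ha).2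
  have hrM : ∀ n, rM F (g + 2) n ≤ K0 := fun n =>
    (card_msets_le_rep A F (fun a ha => ((hF a).1 ha).1) (g + 2) n).trans (hK0 n)
  have hrMeq : ∀ n, n ≤ T → rep A (g + 2) n = rM F (g + 2) n := by
    intro n hn
    rw [rep_eq_card_msets A F T hF (g + 2) n hn]
    rfl
  -- pp is large
  have hpp : g / θ + hh * K0 / s ≤ pp F x := by
    have h1 : (m2 : ℝ) * (1 / 2) ≤ pp F x := by
      calc (m2 : ℝ) * (1 / 2) ≤ (((range X0).filter (fun a => a ∈ A)).card : ℝ) * (1 / 2) := by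
            apply mul_le_mul_of_nonneg_right _ (by norm_num)
            exact_mod_cast hX0
        _ = ∑ a ∈ (range X0).filter (fun a => a ∈ A), (1 / 2 : ℝ) := by
            rw [Finset.sum_const, nsmul_eq_mul]
        _ ≤ ∑ a ∈ (range X0).filter (fun a => a ∈ A), x ^ (2 * a) := by
            apply Finset.sum_le_sum
            intro a ha
            rw [Finset.mem_filter, Finset.mem_range] at ha
            exact hxQ.trans (pow_le_pow_of_le_one hx0.le hx1.le (by omega))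
        _ ≤ pp F x := by
            unfold pp
            apply Finset.sum_le_sum_of_subset_of_nonneg
            · intro a ha
              rw [Finset.mem_filter, Finset.mem_range] at ha
              rw [hF]
              exact ⟨ha.2, by omega⟩
            · intro a _ _
              positivity
    linarith
  have hppA : (g : ℝ) ≤ θ * pp F x := by
    have h1 : (g : ℝ) / θ ≤ pp F x := by
      have : 0 ≤ hh * (K0 : ℝ) / s := by positivity
      linarith
    rw [div_le_iff₀ hθ0] at h1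
    linarith
  have hppB : hh * K0 ≤ s * pp F x := by
    have h1 : hh * (K0 : ℝ) / s ≤ pp F x := by
      have : 0 ≤ (g : ℝ) / θ := by positivity
      linarith
    rw [div_le_iff₀ hs0] at h1
    linarith
  have hpp0 : 0 < pp F x := by
    have h1 : 0 < s * pp F x := lt_of_lt_of_le (by positivity) hppB
    exact (mul_pos_iff_of_pos_left hs0).1 h1
  -- windows
  have hW : ∀ y i, (((F.powersetCard (g + 1)).filter
      (fun S => y ≤ ∑ a ∈ S, a + i ∧ ∑ a ∈ S, a + i < y + Mw)).card : ℝ) ≤ W := by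
    intro y i
    have h1 := window_le F g K0 Mw hrM y i
    have h2 : cA ≤ (F.filter (fun a => a < Mw)).card := by
      rw [hcA]
      apply Finset.card_le_card
      intro a ha
      rw [Finset.mem_filter, Finset.mem_range] at ha
      rw [Finset.mem_filter, hF]
      exact ⟨⟨ha.2, by omega⟩, ha.1⟩
    rw [hWdef, le_div_iff₀ hcA0, hhdef]
    have h3 := (Nat.mul_le_mul_left ((F.powersetCard (g + 1)).filter
      (fun S => y ≤ ∑ a ∈ S, a + i ∧ ∑ a ∈ S, a + i < y + Mw)).card h2).trans h1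
    exact_mod_cast h3
  have hxL : 1 / 2 ≤ x ^ Mw := hxQ.trans (pow_le_pow_of_le_one hx0.le hx1.le (by omega))
  have hdiff : ∀ n m : ℕ, (P n - P m) ^ 2 ≤ (K0 : ℝ) ^ 2 := by
    intro n m
    have h1 := hP0 n
    have h2 := hP1 n
    have h3 := hP0 m
    have h4 := hP1 m
    exact sq_le_sq' (by linarith) (by linarith)
  have hE1 : ∀ i < L, ∑ n ∈ range ((g + 2) * T + 1), x ^ (2 * n) * (P (n + τ i) - P n) ^ 2
      ≤ s * M := by
    intro i hi
    have h1 := abel_weights hx0 hx1 (fun n => (P (n + τ i) - P n) ^ 2 - s / 2) (N0 * (K0 : ℝ) ^ 2)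
      (by
        intro N
        rw [Finset.sum_sub_distrib, Finset.sum_const, card_range, nsmul_eq_mul]
        by_cases hN : N0 ≤ N
        · have := hN0 N hN (τ i) (hτS i hi)
          have h0 : (0 : ℝ) ≤ N0 * (K0 : ℝ) ^ 2 := by positivity
          linarith
        · have h2 : ∑ n ∈ range N, (P (n + τ i) - P n) ^ 2 ≤ N * (K0 : ℝ) ^ 2 := by
            calc ∑ n ∈ range N, (P (n + τ i) - P n) ^ 2 ≤ ∑ n ∈ range N, (K0 : ℝ) ^ 2 :=
                  Finset.sum_le_sum fun n _ => hdiff _ _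
              _ = _ := by rw [Finset.sum_const, card_range, nsmul_eq_mul]
          have h3 : (N : ℝ) ≤ N0 := by exact_mod_cast (not_le.1 hN).le
          have h4 : (N : ℝ) * (K0 : ℝ) ^ 2 ≤ N0 * (K0 : ℝ) ^ 2 :=
            mul_le_mul_of_nonneg_right h3 (by positivity)
          have h5 : 0 ≤ (N : ℝ) * (s / 2) := by positivity
          linarith) ((g + 2) * T)
    simp_rw [mul_sub] at h1
    rw [Finset.sum_sub_distrib, ← Finset.sum_mul] at h1
    have h2 := geom_le x hx0 hx1 ((g + 2) * T + 1)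
    rw [← hM] at h2
    have h3 := mul_le_mul_of_nonneg_right h2 (by positivity : 0 ≤ s / 2)
    have h4 : (N0 : ℝ) * (K0 : ℝ) ^ 2 ≤ s * M / 2 := by
      have a1 : 0 ≤ κ * (K0 : ℝ) := by positivity
      have a2 : 0 ≤ (Mw : ℝ) * (K0 : ℝ) ^ 2 := by positivity
      have a3 : 0 ≤ (K0 : ℝ) ^ 2 := by positivity
      linarith
    linarith
  have hcomp := compare (F := F) (g := g) (x := x) (T := T) (L := L) (Mw := Mw) A K0 hx0 hx1 hF
    hK0 hxT τ hτM hinj W θ θ θ hW hθ0.le (by linarith) hppA hL0 hxL hWε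
    (by
      have := sq_nonneg θ
      have e : (1 - θ) ^ 2 = 1 - 2 * θ + θ ^ 2 := by ring
      rw [e]
      linarith) hθ0 P hP0
    hP1 (s * M) hE1
  rw [← hM, ← hhdef] at hcomp
  have eg : ((g : ℝ) + 1) = hh - 1 := by rw [hhdef]; ring
  rw [eg] at hcomp
  refine final_alg2 hh K0 M (YY F g x T)
    (∑ n ∈ range (T + 1), x ^ (2 * n) * (rM F (g + 2) n : ℝ))
    (∑ n ∈ range ((g + 2) * T + 1), x ^ (2 * n) * ((rep A (g + 2) n : ℝ) - P n) ^ 2)
    (EE F x (g + 1)) (s * M) (1 - x ^ Mw) Mw κ C2 θ θ s β gap D hhh hK0' hMpos (YY_nonneg hx0.le)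
    hs0.le hβ hgap hgap0 hκ0 hθ0 (by rw [hθ]) hθ0 (by rw [hθ]) hD hDs hcomp ?_ ?_ ?_ ?_ le_rfl
    hxz ?_ ?_ ?_
  · -- h2
    have h1 := sum_rM_le F x hx0 hx1.le g (T + 1)
    rw [← hhdef, eg] at h1
    refine h1.trans ?_
    have h2 : ∑ n ∈ range (T + 1), (rho F g n : ℝ) * x ^ (2 * n) ≤ YY F g x T := by
      unfold YY
      apply Finset.sum_le_sum_of_subset_of_nonneg
      · apply Finset.range_subset_range.2
        have : 1 * T ≤ (g + 2) * T := Nat.mul_le_mul_right T (by omega)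
        omega
      · intro n _ _
        positivity
    linarith
  · -- h3
    have h1 := pp_mul_EE_le F x hx0.le (g + 1)
    have h2 := EE_le F x hx0 hx1 (g + 2) K0 hrM
    rw [← hM] at h2
    have e : (((g + 1 : ℕ) : ℝ) + 1) = hh := by rw [hhdef]; push_cast; ring
    rw [e] at h1
    have h3 : pp F x * EE F x (g + 1) ≤ hh * (K0 * M) :=
      h1.trans (mul_le_mul_of_nonneg_left h2 hh0.le)
    have h4 : hh * (K0 * M) ≤ pp F x * (s * M) := by
      have := mul_le_mul_of_nonneg_right hppB hMpos.le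
      linarith
    exact le_of_mul_le_mul_left (h3.trans h4) hpp0
  · -- h4
    have h1 := abel_weights hx0 hx1 (fun n => ((rep A (g + 2) n : ℝ) - P n) ^ 2
      - κ * (rep A (g + 2) n : ℝ)) C2
      (by
        intro N
        rw [Finset.sum_sub_distrib, ← Finset.mul_sum]
        by_cases hN : N2 ≤ N
        · have := hclose N hN
          linarith
        · have h2 : ∑ n ∈ range N, ((rep A (g + 2) n : ℝ) - P n) ^ 2 ≤ N * (K0 : ℝ) ^ 2 := by
            calc ∑ n ∈ range N, ((rep A (g + 2) n : ℝ) - P n) ^ 2 ≤ ∑ n ∈ range N, (K0 : ℝ) ^ 2 := by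
                  apply Finset.sum_le_sum
                  intro n _
                  have a1 : (rep A (g + 2) n : ℝ) ≤ K0 := by exact_mod_cast hK0 n
                  have a2 : (0 : ℝ) ≤ rep A (g + 2) n := Nat.cast_nonneg _
                  have a3 := hP0 n
                  have a4 := hP1 n
                  exact sq_le_sq' (by linarith) (by linarith)
              _ = _ := by rw [Finset.sum_const, card_range, nsmul_eq_mul]
          have h3 : (N : ℝ) ≤ N2 := by exact_mod_cast (not_le.1 hN).le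
          have h4 : (N : ℝ) * (K0 : ℝ) ^ 2 ≤ N2 * (K0 : ℝ) ^ 2 :=
            mul_le_mul_of_nonneg_right h3 (by positivity)
          have h5 : 0 ≤ κ * ∑ n ∈ range N, (rep A (g + 2) n : ℝ) := by positivity
          rw [hC2]
          linarith) ((g + 2) * T)
    have h2 : ∑ n ∈ range ((g + 2) * T + 1), x ^ (2 * n) * (((rep A (g + 2) n : ℝ) - P n) ^ 2
      - κ * (rep A (g + 2) n : ℝ)) = ∑ n ∈ range ((g + 2) * T + 1), x ^ (2 * n) *
        ((rep A (g + 2) n : ℝ) - P n) ^ 2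
        - κ * ∑ n ∈ range ((g + 2) * T + 1), x ^ (2 * n) * (rep A (g + 2) n : ℝ) := by
      rw [Finset.mul_sum, ← Finset.sum_sub_distrib]
      apply Finset.sum_congr rfl
      intro n _
      ring
    rw [h2] at h1
    have hTle : T + 1 ≤ (g + 2) * T + 1 := by
      have : 1 * T ≤ (g + 2) * T := Nat.mul_le_mul_right T (by omega)
      omega
    have h3 : ∑ n ∈ range ((g + 2) * T + 1), x ^ (2 * n) * (rep A (g + 2) n : ℝ) ≤
        ∑ n ∈ range (T + 1), x ^ (2 * n) * (rM F (g + 2) n : ℝ) + K0 := by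
      rw [← Finset.sum_range_add_sum_Ico _ hTle]
      apply add_le_add
      · apply le_of_eq
        apply Finset.sum_congr rfl
        intro n hn
        rw [Finset.mem_range] at hn
        rw [hrMeq n (by omega)]
      · calc ∑ n ∈ Finset.Ico (T + 1) ((g + 2) * T + 1), x ^ (2 * n) * (rep A (g + 2) n : ℝ)
            ≤ ∑ n ∈ Finset.Ico (T + 1) ((g + 2) * T + 1), x ^ (2 * n) * K0 := by
              apply Finset.sum_le_sum
              intro n _
              apply mul_le_mul_of_nonneg_left _ (by positivity)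
              exact_mod_cast hK0 n
          _ = (∑ n ∈ Finset.Ico (T + 1) ((g + 2) * T + 1), x ^ (2 * n)) * K0 := by
              rw [Finset.sum_mul]
          _ ≤ 1 * K0 := mul_le_mul_of_nonneg_right (tail_le hx0 hx1 hxT _) (by positivity)
          _ = K0 := one_mul _
    have h4 := mul_le_mul_of_nonneg_left h3 hκ0
    linarith
  · -- h5
    have h1 : M - 1 ≤ ∑ n ∈ range (T + 1), x ^ (2 * n) := by
      rw [hM]
      exact geom_ge x hx0 hx1 T hxT
    have h2 : ∑ n ∈ range (T + 1), x ^ (2 * n) ≤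
        ∑ n ∈ range (T + 1), x ^ (2 * n) * (rM F (g + 2) n : ℝ) + n0 := by
      have h3 : ∑ n ∈ range (T + 1), x ^ (2 * n) ≤ ∑ n ∈ range (T + 1),
          (x ^ (2 * n) * (rM F (g + 2) n : ℝ) + if n < n0 then 1 else 0) := by
        apply Finset.sum_le_sum
        intro n hn
        rw [Finset.mem_range] at hn
        have hx : 0 ≤ x ^ (2 * n) := by positivity
        have hx' : x ^ (2 * n) ≤ 1 := pow_le_one₀ hx0.le hx1.le
        split_ifs with hc
        · have : 0 ≤ x ^ (2 * n) * (rM F (g + 2) n : ℝ) := by positivity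
          linarith
        · have h4 := hbasis n (not_lt.1 hc)
          rw [hrMeq n (by omega)] at h4
          have h5 : (1 : ℝ) ≤ rM F (g + 2) n := by exact_mod_cast h4
          have := mul_le_mul_of_nonneg_left h5 hx
          linarith
      rw [Finset.sum_add_distrib, ← Finset.sum_filter, Finset.sum_const, nsmul_eq_mul,
        mul_one] at h3
      have h4 : ((range (T + 1)).filter (fun n => n < n0)).card ≤ n0 := by
        calc ((range (T + 1)).filter (fun n => n < n0)).card ≤ (range n0).card := by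
              apply Finset.card_le_card
              intro n hn
              rw [Finset.mem_filter] at hn
              exact Finset.mem_range.2 hn.2
          _ = n0 := card_range _
      have h5 : (((range (T + 1)).filter (fun n => n < n0)).card : ℝ) ≤ n0 := by exact_mod_cast h4
      linarith
    linarith
  · -- h8
    have a2 : 0 ≤ (Mw : ℝ) * (K0 : ℝ) ^ 2 := by positivity
    have a3 : 0 ≤ (K0 : ℝ) ^ 2 := by positivity
    have a4 : 0 ≤ 2 * N0 * (K0 : ℝ) ^ 2 := by positivity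
    linarith
  · have a1 : 0 ≤ κ * (K0 : ℝ) := by positivity
    have a2 : 0 ≤ (Mw : ℝ) * (K0 : ℝ) ^ 2 := by positivity
    have a4 : 0 ≤ 2 * N0 * (K0 : ℝ) ^ 2 := by positivity
    linarith
  · have a1 : 0 ≤ κ * (K0 : ℝ) := by positivity
    have a3 : 0 ≤ (K0 : ℝ) ^ 2 := by positivity
    have a4 : 0 ≤ 2 * N0 * (K0 : ℝ) ^ 2 := by positivity
    linarith

end Pool.Agent.H906R3
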