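import Pool.Agent.H906R3.MainIneq

set_option autoImplicit false

open Finset

namespace Pool.Agent.H906R3

open Pool.Agent.H396R2

lemma final_alg2 (hh K0 M Y m SD E0 E1 z Mw κ C2 ε θ s β gap D : ℝ)
    (hhh : 2 ≤ hh) (hK0 : 1 ≤ K0) (hM : 0 < M) (hY : 0 ≤ Y) (hs : 0 ≤ s)
    (hβ : β = (hh - 1) / hh) (hgap : gap = β - κ) (hgap0 : 0 < gap) (hκ0 : 0 ≤ κ)
    (hθ0 : 0 < θ) (hθ : θ ≤ gap / 12) (hε0 : 0 < ε) (hε : ε ≤ gap / 12)
    (hD : D = (hh - 1) + (1 + θ) ^ 2 + (1 + θ) * (1 + θ⁻¹) * ((hh - 1) * K0 + 1)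
      + 12 * (1 + θ⁻¹))
    (hDs : D * s < gap / 4)
    (h1 : (hh - 1) * ((1 - ε) ^ 2 - ε) * Y ≤
      (1 + θ) * ((1 + θ) * (hh ^ 2 * SD)
        + (1 + θ⁻¹) * ((hh * K0) * (hh * ((hh - 1) * E0)) + (hh * K0) ^ 2))
      + (1 + θ⁻¹) * (2 * (hh ^ 2 * (2 * E1 + 2 * z * K0 ^ 2 * M + 2 * Mw * K0 ^ 2))))
    (h2 : hh * m ≤ Y + hh * ((hh - 1) * E0))
    (h3 : E0 ≤ s * M) (h4 : SD ≤ κ * (m + K0) + C2) (h5 : M / 2 ≤ m)
    (h6 : E1 ≤ s * M) (h7 : z * K0 ^ 2 ≤ s) (h8 : κ * K0 + C2 ≤ s * M)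
    (h9 : K0 ^ 2 ≤ s * M) (h10 : Mw * K0 ^ 2 ≤ s * M) : False := by
  have hh0 : 0 < hh := by linarith
  have hβ0 : 0 ≤ β := by rw [hβ]; apply div_nonneg <;> linarith
  have hβ1 : β ≤ 1 := by rw [hβ, div_le_one hh0]; linarith
  have hβh : (hh - 1) = β * hh := by rw [hβ]; field_simp
  have hκ1 : κ < 1 := by linarith
  have hgap1 : gap ≤ 1 := by linarith
  have hθ1 : θ ≤ 1 / 12 := by linarith
  have hε1 : ε ≤ 1 / 12 := by linarith
  have hsM : 0 ≤ s * M := by positivity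
  have hm0 : 0 ≤ m := by linarith
  have hθi : 0 ≤ 1 + θ⁻¹ := by positivity
  have hθp : 0 ≤ 1 + θ := by positivity
  have hhsq : 0 < hh ^ 2 := by positivity
  -- right-hand side
  have r1 : (1 + θ) * ((1 + θ) * (hh ^ 2 * SD)) ≤ hh ^ 2 * ((1 + θ) ^ 2 * (κ * m + s * M)) := by
    have a1 : SD ≤ κ * m + s * M := by linarith
    have a2 : 0 ≤ (1 + θ) ^ 2 * hh ^ 2 := by positivity
    have := mul_le_mul_of_nonneg_left a1 a2
    calc (1 + θ) * ((1 + θ) * (hh ^ 2 * SD)) = (1 + θ) ^ 2 * hh ^ 2 * SD := by ring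
      _ ≤ (1 + θ) ^ 2 * hh ^ 2 * (κ * m + s * M) := this
      _ = _ := by ring
  have r2 : (1 + θ) * ((1 + θ⁻¹) * ((hh * K0) * (hh * ((hh - 1) * E0)) + (hh * K0) ^ 2))
      ≤ hh ^ 2 * ((1 + θ) * (1 + θ⁻¹) * ((hh - 1) * K0 + 1) * (s * M)) := by
    have a1 : (hh - 1) * K0 * E0 ≤ (hh - 1) * K0 * (s * M) :=
      mul_le_mul_of_nonneg_left h3 (mul_nonneg (by linarith) (by linarith))
    have a2 : (hh - 1) * K0 * E0 + K0 ^ 2 ≤ ((hh - 1) * K0 + 1) * (s * M) := by linarith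
    have a3 : 0 ≤ (1 + θ) * (1 + θ⁻¹) * hh ^ 2 := by positivity
    have := mul_le_mul_of_nonneg_left a2 a3
    calc (1 + θ) * ((1 + θ⁻¹) * ((hh * K0) * (hh * ((hh - 1) * E0)) + (hh * K0) ^ 2))
        = (1 + θ) * (1 + θ⁻¹) * hh ^ 2 * ((hh - 1) * K0 * E0 + K0 ^ 2) := by ring
      _ ≤ (1 + θ) * (1 + θ⁻¹) * hh ^ 2 * (((hh - 1) * K0 + 1) * (s * M)) := this
      _ = _ := by ring
  have r3 : (1 + θ⁻¹) * (2 * (hh ^ 2 * (2 * E1 + 2 * z * K0 ^ 2 * M + 2 * Mw * K0 ^ 2)))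
      ≤ hh ^ 2 * (12 * (1 + θ⁻¹) * (s * M)) := by
    have a0 : z * K0 ^ 2 * M ≤ s * M := mul_le_mul_of_nonneg_right h7 hM.le
    have a1 : 2 * E1 + 2 * z * K0 ^ 2 * M + 2 * Mw * K0 ^ 2 ≤ 6 * (s * M) := by linarith
    have a3 : 0 ≤ (1 + θ⁻¹) * 2 * hh ^ 2 := by positivity
    have := mul_le_mul_of_nonneg_left a1 a3
    calc (1 + θ⁻¹) * (2 * (hh ^ 2 * (2 * E1 + 2 * z * K0 ^ 2 * M + 2 * Mw * K0 ^ 2)))
        = (1 + θ⁻¹) * 2 * hh ^ 2 * (2 * E1 + 2 * z * K0 ^ 2 * M + 2 * Mw * K0 ^ 2) := by ring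
      _ ≤ (1 + θ⁻¹) * 2 * hh ^ 2 * (6 * (s * M)) := this
      _ = _ := by ring
  -- left-hand side
  have l1 : hh ^ 2 * (β * (1 - 3 * ε) * m - (hh - 1) * (s * M)) ≤
      (hh - 1) * ((1 - ε) ^ 2 - ε) * Y := by
    have a1 : (hh - 1) * (1 - 3 * ε) * Y ≤ (hh - 1) * ((1 - ε) ^ 2 - ε) * Y := by
      apply mul_le_mul_of_nonneg_right _ hY
      apply mul_le_mul_of_nonneg_left _ (by linarith)
      have := sq_nonneg ε
      linarith
    have a2 : hh * (m - (hh - 1) * (s * M)) ≤ Y := by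
      have : hh * ((hh - 1) * E0) ≤ hh * ((hh - 1) * (s * M)) := by
        apply mul_le_mul_of_nonneg_left _ hh0.le
        exact mul_le_mul_of_nonneg_left h3 (by linarith)
      have e : hh * (m - (hh - 1) * (s * M)) = hh * m - hh * ((hh - 1) * (s * M)) := by ring
      rw [e]
      linarith
    have a3 : 0 ≤ (hh - 1) * (1 - 3 * ε) := mul_nonneg (by linarith) (by linarith)
    have a4 := mul_le_mul_of_nonneg_left a2 a3
    have a5 : (hh - 1) * (1 - 3 * ε) * (hh * (m - (hh - 1) * (s * M)))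
        = hh ^ 2 * (β * (1 - 3 * ε) * m) - hh ^ 2 * (β * (1 - 3 * ε) * ((hh - 1) * (s * M))) := by
      rw [hβh]; ring
    have a6 : β * (1 - 3 * ε) * ((hh - 1) * (s * M)) ≤ (hh - 1) * (s * M) := by
      have b1 : β * (1 - 3 * ε) ≤ 1 := by
        calc β * (1 - 3 * ε) ≤ 1 * 1 :=
              mul_le_mul hβ1 (by linarith) (by linarith) zero_le_one
          _ = 1 := one_mul 1
      have b2 : 0 ≤ (hh - 1) * (s * M) := mul_nonneg (by linarith) hsM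
      calc β * (1 - 3 * ε) * ((hh - 1) * (s * M)) ≤ 1 * ((hh - 1) * (s * M)) :=
            mul_le_mul_of_nonneg_right b1 b2
        _ = _ := one_mul _
    have a7 := mul_le_mul_of_nonneg_left a6 hhsq.le
    calc hh ^ 2 * (β * (1 - 3 * ε) * m - (hh - 1) * (s * M))
        = hh ^ 2 * (β * (1 - 3 * ε) * m) - hh ^ 2 * ((hh - 1) * (s * M)) := by ring
      _ ≤ hh ^ 2 * (β * (1 - 3 * ε) * m) - hh ^ 2 * (β * (1 - 3 * ε) * ((hh - 1) * (s * M))) := by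
          linarith
      _ = (hh - 1) * (1 - 3 * ε) * (hh * (m - (hh - 1) * (s * M))) := a5.symm
      _ ≤ (hh - 1) * (1 - 3 * ε) * Y := a4
      _ ≤ _ := a1
  have hmain : hh ^ 2 * (β * (1 - 3 * ε) * m - (hh - 1) * (s * M)) ≤
      hh ^ 2 * ((1 + θ) ^ 2 * (κ * m + s * M)
        + (1 + θ) * (1 + θ⁻¹) * ((hh - 1) * K0 + 1) * (s * M) + 12 * (1 + θ⁻¹) * (s * M)) := by
    calc _ ≤ _ := l1
      _ ≤ _ := h1
      _ = (1 + θ) * ((1 + θ) * (hh ^ 2 * SD))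
        + (1 + θ) * ((1 + θ⁻¹) * ((hh * K0) * (hh * ((hh - 1) * E0)) + (hh * K0) ^ 2))
        + (1 + θ⁻¹) * (2 * (hh ^ 2 * (2 * E1 + 2 * z * K0 ^ 2 * M + 2 * Mw * K0 ^ 2))) := by ring
      _ ≤ hh ^ 2 * ((1 + θ) ^ 2 * (κ * m + s * M))
        + hh ^ 2 * ((1 + θ) * (1 + θ⁻¹) * ((hh - 1) * K0 + 1) * (s * M))
        + hh ^ 2 * (12 * (1 + θ⁻¹) * (s * M)) := by linarith
      _ = _ := by ring
  have h11 := le_of_mul_le_mul_left hmain hhsq
  have h12 : β * (1 - 3 * ε) * m ≤ (1 + θ) ^ 2 * κ * m + D * s * M := by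
    rw [hD]
    have e : ((hh - 1) + (1 + θ) ^ 2 + (1 + θ) * (1 + θ⁻¹) * ((hh - 1) * K0 + 1)
      + 12 * (1 + θ⁻¹)) * s * M = (hh - 1) * (s * M) + (1 + θ) ^ 2 * (s * M)
      + (1 + θ) * (1 + θ⁻¹) * ((hh - 1) * K0 + 1) * (s * M) + 12 * (1 + θ⁻¹) * (s * M) := by ring
    rw [e]
    have e2 : (1 + θ) ^ 2 * (κ * m + s * M) = (1 + θ) ^ 2 * κ * m + (1 + θ) ^ 2 * (s * M) := by ring
    rw [e2] at h11
    linarith
  have h13 : (1 + θ) ^ 2 * κ ≤ κ + gap / 4 := by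
    have a1 : (1 + θ) ^ 2 * κ = κ + (2 * θ + θ ^ 2) * κ := by ring
    have a2 : 2 * θ + θ ^ 2 ≤ 3 * θ := by
      have : θ * θ ≤ 1 * θ := mul_le_mul_of_nonneg_right (by linarith) hθ0.le
      have e : θ ^ 2 = θ * θ := pow_two θ
      linarith
    have a3 : (2 * θ + θ ^ 2) * κ ≤ (3 * θ) * 1 := mul_le_mul a2 hκ1.le hκ0 (by positivity)
    rw [a1]
    linarith
  have h14 : β - gap / 4 ≤ β * (1 - 3 * ε) := by
    have : β * ε ≤ 1 * ε := mul_le_mul_of_nonneg_right hβ1 hε0.le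
    have e : β * (1 - 3 * ε) = β - 3 * (β * ε) := by ring
    rw [e]
    linarith
  have h15 : (β - gap / 4) * m ≤ (κ + gap / 4) * m + D * s * M := by
    have a1 := mul_le_mul_of_nonneg_right h14 hm0
    have a2 := mul_le_mul_of_nonneg_right h13 hm0
    linarith
  have h16 : gap / 2 * m ≤ D * s * M := by
    have : β = κ + gap := by linarith
    rw [this] at h15
    have e1 : (κ + gap - gap / 4) * m = κ * m + gap / 2 * m + gap / 4 * m := by ring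
    have e2 : (κ + gap / 4) * m = κ * m + gap / 4 * m := by ring
    rw [e1, e2] at h15
    linarith
  have h17 : gap / 4 * M ≤ gap / 2 * m := by
    have := mul_le_mul_of_nonneg_left h5 (by linarith : 0 ≤ gap / 2)
    calc gap / 4 * M = gap / 2 * (M / 2) := by ring
      _ ≤ _ := this
  have h18 : D * s * M < gap / 4 * M := mul_lt_mul_of_pos_right hDs hM
  linarith

/-- `P` is mean-square rigid with exponent `α`: for every `ε > 0` there are intervals `[0, M)` with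
arbitrarily many times `M ^ α` shifts `τ` for which `P (n + τ)` and `P n` differ by at most `ε` in
mean square. -/
def MeanSqRigid (α : ℝ) (P : ℕ → ℝ) : Prop :=
  ∀ ε : ℝ, 0 < ε → ∀ C : ℝ, ∃ (M : ℕ) (S : Finset ℕ), 1 ≤ M ∧ S ⊆ range M ∧
    C * (M : ℝ) ^ α ≤ S.card ∧
    ∀ τ ∈ S, ∀ᶠ N : ℕ in Filter.atTop, ∑ n ∈ range N, (P (n + τ) - P n) ^ 2 ≤ ε * N

/-- a basis has many elements -/
lemma count_lower (A : Set ℕ) (h n0 : ℕ) (hb : ∀ n ≥ n0, 1 ≤ rep A h n) (M : ℕ)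
    [DecidablePred (· ∈ A)] :
    M - n0 ≤ ((range M).filter (fun a => a ∈ A)).card ^ h := by
  classical
  set F := (range M).filter (fun a => a ∈ A) with hF
  have h1 : ∀ n, ∃ f : Fin h → ℕ, (n0 ≤ n ∧ n < M) → (∀ i, f i ∈ F) ∧
      (Multiset.ofList (List.ofFn f)).sum = n := by
    intro n
    by_cases hn : n0 ≤ n ∧ n < M
    · have h2 := hb n hn.1
      unfold rep at h2
      have h3 : (0 : ℕ) < Set.ncard {s : Multiset ℕ | Multiset.card s = h ∧ (∀ a ∈ s, a ∈ A) ∧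
        s.sum = n} := by omega
      rw [Set.ncard_pos (rep_set_finite A h n)] at h3
      obtain ⟨s, hs1, hs2, hs3⟩ := h3
      obtain ⟨l, rfl⟩ := Quotient.exists_rep s
      have hl : l.length = h := hs1
      subst hl
      refine ⟨fun i => l.get i, fun _ => ⟨fun i => ?_, ?_⟩⟩
      · have h4 : (l.get i) ∈ (Multiset.ofList l) := by simp
        have h5 := Multiset.le_sum_of_mem h4
        have h6 : (Multiset.ofList l).sum = n := hs3
        show l.get i ∈ F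
        rw [hF, Finset.mem_filter, Finset.mem_range]
        exact ⟨by omega, hs2 _ h4⟩
      · rw [List.ofFn_get]
        exact hs3
    · exact ⟨fun _ => 0, fun h => absurd h hn⟩
  choose p hp using h1
  have h3 : ((Finset.Ico n0 M).image p : Finset (Fin h → ℕ)) ⊆
      Fintype.piFinset (fun _ : Fin h => F) := by
    intro q hq
    obtain ⟨n, hn, rfl⟩ := Finset.mem_image.1 hq
    rw [Finset.mem_Ico] at hn
    rw [Fintype.mem_piFinset]
    exact (hp n hn).1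
  have h4 := Finset.card_le_card h3
  rw [Fintype.card_piFinset, Finset.prod_const, Finset.card_image_of_injOn, Nat.card_Ico,
    Finset.card_univ, Fintype.card_fin] at h4
  · exact h4
  · intro n hn m hm hnm
    rw [Finset.coe_Ico, Set.mem_Ico] at hn hm
    have h5 := (hp n hn).2
    have h6 := (hp m hm).2
    rw [← h5, ← h6, hnm]

end Pool.Agent.H906R3
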