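import Pool.Agent.H906R3.Transfer

set_option autoImplicit false

open Finset

namespace Pool.Agent.H906R3

open Pool.Agent.H396R2

variable {F : Finset ℕ} {g : ℕ} {x : ℝ} {T L Mw : ℕ}

/-- error of the passage from `ρ` to `h r` -/
lemma err_le (A : Set ℕ) (K0 : ℕ) (hx0 : 0 < x) (hx1 : x < 1)
    (hF : ∀ a, a ∈ F ↔ a ∈ A ∧ a ≤ T) (hK0 : ∀ n, rep A (g + 2) n ≤ K0)
    (hxT : x ^ (2 * (T + 1)) ≤ 1 - x ^ 2) :
    ∑ n ∈ range ((g + 2) * T + 1), x ^ (2 * n) *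
        (((g : ℝ) + 2) * (rep A (g + 2) n : ℝ) - rho F g n) ^ 2
      ≤ (((g : ℝ) + 2) * K0) * (((g : ℝ) + 2) * (((g : ℝ) + 1) * EE F x (g + 1)))
        + (((g : ℝ) + 2) * K0) ^ 2 := by
  classical
  have hrho : ∀ n, (rho F g n : ℝ) ≤ ((g : ℝ) + 2) * (rep A (g + 2) n : ℝ) := by
    intro n
    have h1 := rho_le F g n
    have h2 : rM F (g + 2) n ≤ rep A (g + 2) n :=
      card_msets_le_rep A F (fun a ha => ((hF a).1 ha).1) (g + 2) n
    have h3 : rho F g n ≤ (g + 2) * rep A (g + 2) n := h1.trans (Nat.mul_le_mul_left _ h2)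
    exact_mod_cast h3
  have hE0 : ∀ n, 0 ≤ ((g : ℝ) + 2) * (rep A (g + 2) n : ℝ) - rho F g n := fun n => by
    linarith [hrho n]
  have hE1 : ∀ n, ((g : ℝ) + 2) * (rep A (g + 2) n : ℝ) - rho F g n ≤ ((g : ℝ) + 2) * K0 := by
    intro n
    have h1 : ((g : ℝ) + 2) * (rep A (g + 2) n : ℝ) ≤ ((g : ℝ) + 2) * K0 := by
      apply mul_le_mul_of_nonneg_left _ (by positivity)
      exact_mod_cast hK0 n
    have h2 : (0 : ℝ) ≤ rho F g n := Nat.cast_nonneg _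
    linarith
  have hTle : T + 1 ≤ (g + 2) * T + 1 := by
    have : 1 * T ≤ (g + 2) * T := Nat.mul_le_mul_right T (by omega)
    omega
  rw [← Finset.sum_range_add_sum_Ico _ hTle]
  apply add_le_add
  · have h1 : ∑ n ∈ range (T + 1), x ^ (2 * n) *
        (((g : ℝ) + 2) * (rep A (g + 2) n : ℝ) - rho F g n) ^ 2
        ≤ ∑ n ∈ range (T + 1), (((g : ℝ) + 2) * K0) * (x ^ (2 * n) *
          (((g : ℝ) + 2) * (rM F (g + 2) n : ℝ) - rho F g n)) := by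
      apply Finset.sum_le_sum
      intro n hn
      rw [Finset.mem_range] at hn
      have hr : rep A (g + 2) n = rM F (g + 2) n := by
        rw [rep_eq_card_msets A F T hF (g + 2) n (by omega)]
        rfl
      have e0 := hE0 n
      have e1 := hE1 n
      rw [hr] at e0 e1 ⊢
      have hx : 0 ≤ x ^ (2 * n) := by positivity
      have h2 : (((g : ℝ) + 2) * (rM F (g + 2) n : ℝ) - rho F g n) ^ 2 ≤
          (((g : ℝ) + 2) * K0) * (((g : ℝ) + 2) * (rM F (g + 2) n : ℝ) - rho F g n) := by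
        rw [pow_two]
        exact mul_le_mul_of_nonneg_right e1 e0
      have h3 := mul_le_mul_of_nonneg_left h2 hx
      linarith
    rw [← Finset.mul_sum] at h1
    refine h1.trans ?_
    apply mul_le_mul_of_nonneg_left _ (by positivity)
    have h2 := sum_rM_le F x hx0 hx1.le g (T + 1)
    have h3 : ∑ n ∈ range (T + 1), x ^ (2 * n) * (((g : ℝ) + 2) * (rM F (g + 2) n : ℝ) - rho F g n)
        = ((g : ℝ) + 2) * ∑ n ∈ range (T + 1), x ^ (2 * n) * (rM F (g + 2) n : ℝ)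
          - ∑ n ∈ range (T + 1), (rho F g n : ℝ) * x ^ (2 * n) := by
      rw [Finset.mul_sum, ← Finset.sum_sub_distrib]
      apply Finset.sum_congr rfl
      intro n _
      ring
    rw [h3]
    linarith
  · calc ∑ n ∈ Finset.Ico (T + 1) ((g + 2) * T + 1), x ^ (2 * n) *
        (((g : ℝ) + 2) * (rep A (g + 2) n : ℝ) - rho F g n) ^ 2
        ≤ ∑ n ∈ Finset.Ico (T + 1) ((g + 2) * T + 1), x ^ (2 * n) * (((g : ℝ) + 2) * K0) ^ 2 := by
          apply Finset.sum_le_sum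
          intro n _
          apply mul_le_mul_of_nonneg_left _ (by positivity)
          exact pow_le_pow_left₀ (hE0 n) (hE1 n) 2
      _ = (∑ n ∈ Finset.Ico (T + 1) ((g + 2) * T + 1), x ^ (2 * n)) * (((g : ℝ) + 2) * K0) ^ 2 := by
          rw [Finset.sum_mul]
      _ ≤ 1 * (((g : ℝ) + 2) * K0) ^ 2 := by
          apply mul_le_mul_of_nonneg_right _ (by positivity)
          exact tail_le hx0 hx1 hxT _
      _ = _ := one_mul _

/-- the shifted difference of the comparison function -/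
lemma shift_err (K0 : ℝ) (hK0 : 0 ≤ K0) (hx0 : 0 < x) (hx1 : x < 1) (P : ℕ → ℝ)
    (hP0 : ∀ n, 0 ≤ P n) (hP1 : ∀ n, P n ≤ K0) (N τ : ℕ) (hτ : τ < Mw) (c : ℝ) (E1 : ℝ)
    (hE1 : ∑ n ∈ range N, x ^ (2 * n) * (P (n + τ) - P n) ^ 2 ≤ E1) (u : ℕ → ℝ)
    (hu : ∀ n, u n = if n < N then c * (x ^ n * P n) else 0) :
    ∑ n ∈ range N, (u (n + τ) - u n) ^ 2 + ∑ n ∈ range τ, (u n) ^ 2
      ≤ c ^ 2 * (2 * E1 + 2 * (1 - x ^ Mw) * K0 ^ 2 * (1 - x ^ 2)⁻¹ + 2 * Mw * K0 ^ 2) := by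
  classical
  have hx2 : 0 < 1 - x ^ 2 := by nlinarith
  have hu2 : ∀ n, (u n) ^ 2 ≤ c ^ 2 * K0 ^ 2 := by
    intro n
    rw [hu]
    split_ifs
    · have h1 : x ^ n * P n ≤ K0 := by
        calc x ^ n * P n ≤ 1 * K0 :=
              mul_le_mul (pow_le_one₀ hx0.le hx1.le) (hP1 n) (hP0 n) zero_le_one
          _ = K0 := one_mul _
      have h2 : 0 ≤ x ^ n * P n := mul_nonneg (by positivity) (hP0 n)
      rw [mul_pow]
      apply mul_le_mul_of_nonneg_left _ (sq_nonneg c)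
      exact pow_le_pow_left₀ h2 h1 2
    · have : 0 ≤ c ^ 2 * K0 ^ 2 := by positivity
      simpa using this
  have h1 : ∑ n ∈ range τ, (u n) ^ 2 ≤ Mw * (c ^ 2 * K0 ^ 2) := by
    calc ∑ n ∈ range τ, (u n) ^ 2 ≤ ∑ n ∈ range τ, c ^ 2 * K0 ^ 2 :=
          Finset.sum_le_sum fun n _ => hu2 n
      _ = τ * (c ^ 2 * K0 ^ 2) := by rw [Finset.sum_const, card_range, nsmul_eq_mul]
      _ ≤ Mw * (c ^ 2 * K0 ^ 2) := by
          apply mul_le_mul_of_nonneg_right _ (by positivity)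
          exact_mod_cast hτ.le
  have h2 : ∑ n ∈ range N, (u (n + τ) - u n) ^ 2 ≤
      ∑ n ∈ range N, (c ^ 2 * (2 * (x ^ (2 * n) * (P (n + τ) - P n) ^ 2)
        + 2 * (1 - x ^ Mw) * K0 ^ 2 * x ^ (2 * n))
        + if N ≤ n + τ then c ^ 2 * K0 ^ 2 else 0) := by
    apply Finset.sum_le_sum
    intro n hn
    rw [Finset.mem_range] at hn
    have hxM : 0 ≤ 1 - x ^ Mw := by
      have := pow_le_one₀ hx0.le hx1.le (n := Mw)
      linarith
    have hbase : 0 ≤ c ^ 2 * (2 * (x ^ (2 * n) * (P (n + τ) - P n) ^ 2)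
        + 2 * (1 - x ^ Mw) * K0 ^ 2 * x ^ (2 * n)) := by positivity
    by_cases hc : N ≤ n + τ
    · rw [if_pos hc]
      have e : u (n + τ) = 0 := by rw [hu, if_neg (by omega)]
      rw [e, zero_sub, neg_sq]
      have := hu2 n
      linarith
    · rw [if_neg hc, add_zero, hu, hu, if_pos (by omega), if_pos hn]
      have e : c * (x ^ (n + τ) * P (n + τ)) - c * (x ^ n * P n)
          = c * (x ^ n * ((P (n + τ) - P n) - (1 - x ^ τ) * P (n + τ))) := by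
        rw [pow_add]; ring
      rw [e, mul_pow, mul_pow, ← pow_mul, mul_comm n 2]
      apply mul_le_mul_of_nonneg_left _ (sq_nonneg c)
      have hxn : 0 ≤ x ^ (2 * n) := by positivity
      have h3 : ((P (n + τ) - P n) - (1 - x ^ τ) * P (n + τ)) ^ 2 ≤
          2 * (P (n + τ) - P n) ^ 2 + 2 * ((1 - x ^ τ) * P (n + τ)) ^ 2 := by
        nlinarith [sq_nonneg ((P (n + τ) - P n) + (1 - x ^ τ) * P (n + τ))]
      have h4 : ((1 - x ^ τ) * P (n + τ)) ^ 2 ≤ (1 - x ^ Mw) * K0 ^ 2 := by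
        have a0 : 0 ≤ 1 - x ^ τ := by
          have := pow_le_one₀ hx0.le hx1.le (n := τ)
          linarith
        have a1 : 1 - x ^ τ ≤ 1 - x ^ Mw := by
          have := pow_le_pow_of_le_one hx0.le hx1.le hτ.le
          linarith
        have a2 : 1 - x ^ τ ≤ 1 := by
          have : 0 ≤ x ^ τ := by positivity
          linarith
        rw [mul_pow]
        have a3 : (1 - x ^ τ) ^ 2 ≤ 1 - x ^ Mw := by nlinarith
        have a4 : (P (n + τ)) ^ 2 ≤ K0 ^ 2 := pow_le_pow_left₀ (hP0 _) (hP1 _) 2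
        exact mul_le_mul a3 a4 (sq_nonneg _) hxM
      calc x ^ (2 * n) * ((P (n + τ) - P n) - (1 - x ^ τ) * P (n + τ)) ^ 2
          ≤ x ^ (2 * n) * (2 * (P (n + τ) - P n) ^ 2 + 2 * ((1 - x ^ Mw) * K0 ^ 2)) := by
            apply mul_le_mul_of_nonneg_left _ hxn
            linarith
        _ = _ := by ring
  have h3 : ∑ n ∈ range N, (if N ≤ n + τ then c ^ 2 * K0 ^ 2 else 0) ≤ Mw * (c ^ 2 * K0 ^ 2) := by
    rw [← Finset.sum_filter, Finset.sum_const, nsmul_eq_mul]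
    apply mul_le_mul_of_nonneg_right _ (by positivity)
    have : ((range N).filter (fun n => N ≤ n + τ)).card ≤ τ := by
      calc ((range N).filter (fun n => N ≤ n + τ)).card ≤ (Finset.Ico (N - τ) N).card := by
            apply Finset.card_le_card
            intro n hn
            rw [Finset.mem_filter, Finset.mem_range] at hn
            rw [Finset.mem_Ico]
            omega
        _ ≤ τ := by rw [Nat.card_Ico]; omega
    exact_mod_cast this.trans hτ.le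
  have h4 : ∑ n ∈ range N, (c ^ 2 * (2 * (x ^ (2 * n) * (P (n + τ) - P n) ^ 2)
        + 2 * (1 - x ^ Mw) * K0 ^ 2 * x ^ (2 * n)))
      = c ^ 2 * (2 * ∑ n ∈ range N, x ^ (2 * n) * (P (n + τ) - P n) ^ 2
        + 2 * (1 - x ^ Mw) * K0 ^ 2 * ∑ n ∈ range N, x ^ (2 * n)) := by
    rw [← Finset.mul_sum, Finset.sum_add_distrib, ← Finset.mul_sum, ← Finset.mul_sum]
  rw [Finset.sum_add_distrib, h4] at h2
  have hxM : 0 ≤ 1 - x ^ Mw := by
    have := pow_le_one₀ hx0.le hx1.le (n := Mw)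
    linarith
  have h5 : 2 * (1 - x ^ Mw) * K0 ^ 2 * ∑ n ∈ range N, x ^ (2 * n) ≤
      2 * (1 - x ^ Mw) * K0 ^ 2 * (1 - x ^ 2)⁻¹ :=
    mul_le_mul_of_nonneg_left (geom_le x hx0 hx1 N) (by positivity)
  have h6 : c ^ 2 * (2 * ∑ n ∈ range N, x ^ (2 * n) * (P (n + τ) - P n) ^ 2
        + 2 * (1 - x ^ Mw) * K0 ^ 2 * ∑ n ∈ range N, x ^ (2 * n)) ≤
      c ^ 2 * (2 * E1 + 2 * (1 - x ^ Mw) * K0 ^ 2 * (1 - x ^ 2)⁻¹) := by
    apply mul_le_mul_of_nonneg_left _ (sq_nonneg c)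
    linarith
  calc ∑ n ∈ range N, (u (n + τ) - u n) ^ 2 + ∑ n ∈ range τ, (u n) ^ 2
      ≤ c ^ 2 * (2 * E1 + 2 * (1 - x ^ Mw) * K0 ^ 2 * (1 - x ^ 2)⁻¹)
        + Mw * (c ^ 2 * K0 ^ 2) + Mw * (c ^ 2 * K0 ^ 2) := by linarith
    _ = _ := by ring

/-- Main inequality: comparison with an arbitrary function `P`. -/
theorem compare (A : Set ℕ) (K0 : ℕ) (hx0 : 0 < x) (hx1 : x < 1)
    (hF : ∀ a, a ∈ F ↔ a ∈ A ∧ a ≤ T) (hK0 : ∀ n, rep A (g + 2) n ≤ K0)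
    (hxT : x ^ (2 * (T + 1)) ≤ 1 - x ^ 2)
    (τ : ℕ → ℕ) (hτ : ∀ i < L, τ i < Mw)
    (hinj : ∀ i < L, ∀ j < L, τ i = τ j → i = j) (W η ε θ : ℝ)
    (hW : ∀ y i, (((F.powersetCard (g + 1)).filter
      (fun S => y ≤ ∑ a ∈ S, a + i ∧ ∑ a ∈ S, a + i < y + Mw)).card : ℝ) ≤ W)
    (hη0 : 0 ≤ η) (hη1 : η ≤ 1) (hη : (g : ℝ) ≤ η * pp F x) (hL : 0 < L)
    (hxL : 1 / 2 ≤ x ^ Mw) (hWε : 4 * W ≤ ε * L) (hε : ε ≤ (1 - η) ^ 2) (hθ : 0 < θ)
    (P : ℕ → ℝ) (hP0 : ∀ n, 0 ≤ P n) (hP1 : ∀ n, P n ≤ K0) (E1 : ℝ)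
    (hE1 : ∀ i < L, ∑ n ∈ range ((g + 2) * T + 1), x ^ (2 * n) * (P (n + τ i) - P n) ^ 2 ≤ E1) :
    (g + 1 : ℝ) * ((1 - η) ^ 2 - ε) * YY F g x T ≤
      (1 + θ) * ((1 + θ) * (((g : ℝ) + 2) ^ 2 * ∑ n ∈ range ((g + 2) * T + 1), x ^ (2 * n) *
          ((rep A (g + 2) n : ℝ) - P n) ^ 2)
        + (1 + θ⁻¹) * ((((g : ℝ) + 2) * K0) * (((g : ℝ) + 2) * (((g : ℝ) + 1) * EE F x (g + 1)))
          + (((g : ℝ) + 2) * K0) ^ 2))
      + (1 + θ⁻¹) * (2 * (((g : ℝ) + 2) ^ 2 * (2 * E1 + 2 * (1 - x ^ Mw) * K0 ^ 2 * (1 - x ^ 2)⁻¹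
          + 2 * Mw * K0 ^ 2))) := by
  classical
  set B := (g + 2) * T + 2 * Mw + 1 with hBdef
  have : NeZero B := ⟨by omega⟩
  have hFT : ∀ a ∈ F, a ≤ T := fun a ha => ((hF a).1 ha).2
  have hs := star' (F := F) (g := g) (x := x) (T := T) (L := L) (Mw := Mw) (B := B) hx0 hx1.le hFT
    (by omega) τ hτ hinj W η ε hW hη0 hη1 hη hL hxL hWε hε
  set N := (g + 2) * T + 1 with hN
  obtain ⟨u, hu⟩ : ∃ u : ℕ → ℝ, ∀ n, u n = if n < N then ((g : ℝ) + 2) * (x ^ n * P n) else 0 :=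
    ⟨_, fun _ => rfl⟩
  have hu0 : ∀ n, N ≤ n → u n = 0 := fun n hn => by rw [hu, if_neg (by omega)]
  obtain ⟨v, hv⟩ : ∃ v : ℕ → ℝ, ∀ n, v n = x ^ n * rho F g n - u n := ⟨_, fun _ => rfl⟩
  have hv0 : ∀ n, N ≤ n → v n = 0 := fun n hn => by
    rw [hv, hu0 n hn, rho_eq_zero hFT n (by omega)]
    simp
  have hR : Rf F g x B = fun k => lift B v k + lift B u k := by
    rw [Rf_eq_lift hFT (by omega)]
    ext k
    unfold lift
    rw [hv]
    ring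
  rw [hR] at hs
  have h1 := QQ_add L (fun i => (τ i : ZMod B)) (lift B v) (lift B u) θ hθ
  have h2 := QQ_le L (fun i => (τ i : ZMod B)) (lift B v)
  have hNB : N ≤ B := by omega
  rw [sum_lift_sq v hNB hv0] at h2
  have h3 := QQ_shift L (fun i => (τ i : ZMod B)) (lift B u)
    (((g : ℝ) + 2) ^ 2 * (2 * E1 + 2 * (1 - x ^ Mw) * K0 ^ 2 * (1 - x ^ 2)⁻¹
          + 2 * Mw * K0 ^ 2)) (by
      intro i hi
      rw [Finset.mem_range] at hi
      have hτi := hτ i hi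
      refine (sum_lift_shift u (by omega) hu0).trans ?_
      exact shift_err (x := x) (Mw := Mw) K0 (Nat.cast_nonneg _) hx0 hx1 P hP0 hP1 N (τ i) hτi
        ((g : ℝ) + 2) E1 (hE1 i hi) u hu)
  -- the sum of v²
  have h4 : ∑ n ∈ range N, (v n) ^ 2 ≤ (1 + θ) * (((g : ℝ) + 2) ^ 2 * ∑ n ∈ range N, x ^ (2 * n) *
          ((rep A (g + 2) n : ℝ) - P n) ^ 2)
        + (1 + θ⁻¹) * ((((g : ℝ) + 2) * K0) * (((g : ℝ) + 2) * (((g : ℝ) + 1) * EE F x (g + 1)))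
          + (((g : ℝ) + 2) * K0) ^ 2) := by
    have h5 := err_le (F := F) (g := g) (x := x) (T := T) A K0 hx0 hx1 hF hK0 hxT
    rw [← hN] at h5
    have h6 : ∑ n ∈ range N, (v n) ^ 2 ≤ ∑ n ∈ range N,
        ((1 + θ) * (((g : ℝ) + 2) ^ 2 * (x ^ (2 * n) * ((rep A (g + 2) n : ℝ) - P n) ^ 2))
        + (1 + θ⁻¹) * (x ^ (2 * n) *
        (((g : ℝ) + 2) * (rep A (g + 2) n : ℝ) - rho F g n) ^ 2)) := by
      apply Finset.sum_le_sum
      intro n hn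
      rw [Finset.mem_range] at hn
      rw [hv, hu, if_pos hn]
      have e : x ^ n * (rho F g n : ℝ) - ((g : ℝ) + 2) * (x ^ n * P n)
          = x ^ n * (((g : ℝ) + 2) * ((rep A (g + 2) n : ℝ) - P n)
            + -(((g : ℝ) + 2) * (rep A (g + 2) n : ℝ) - rho F g n)) := by ring
      rw [e, mul_pow, ← pow_mul, mul_comm n 2]
      have h7 := sq_add_le θ (((g : ℝ) + 2) * ((rep A (g + 2) n : ℝ) - P n))
        (-(((g : ℝ) + 2) * (rep A (g + 2) n : ℝ) - rho F g n)) hθ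
      have hx : 0 ≤ x ^ (2 * n) := by positivity
      have h8 := mul_le_mul_of_nonneg_left h7 hx
      refine h8.trans (le_of_eq ?_)
      ring
    rw [Finset.sum_add_distrib, ← Finset.mul_sum, ← Finset.mul_sum, ← Finset.mul_sum] at h6
    have hθ' : 0 ≤ 1 + θ⁻¹ := by positivity
    have := mul_le_mul_of_nonneg_left h5 hθ'
    linarith
  have hL0 : (0 : ℝ) < (L : ℝ) ^ 2 := by positivity
  have hθ1 : 0 ≤ 1 + θ := by positivity
  have hθ2 : 0 ≤ 1 + θ⁻¹ := by positivity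
  have h5 := mul_le_mul_of_nonneg_left (h2.trans (mul_le_mul_of_nonneg_left h4 hL0.le)) hθ1
  have h6 := mul_le_mul_of_nonneg_left h3 hθ2
  apply le_of_mul_le_mul_left _ hL0
  refine hs.trans (h1.trans ?_)
  refine (add_le_add h5 h6).trans (le_of_eq ?_)
  ring

end Pool.Agent.H906R3
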