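import Pool.Agent.H396R2.Star

set_option autoImplicit false

open Finset

namespace Pool.Agent.H906R3

open Pool.Agent.H396R2

section Group

variable {G : Type*} [AddCommGroup G] [Fintype G]

/-- the quadratic form `L² ∑ u² - ∑_k (∑_i u (k + γ i))²` -/
noncomputable def QQ (L : ℕ) (γ : ℕ → G) (u : G → ℝ) : ℝ :=
  (L : ℝ) ^ 2 * ∑ k, (u k) ^ 2 - ∑ k, (∑ i ∈ range L, u (k + γ i)) ^ 2

lemma QQ_eq (L : ℕ) (γ : ℕ → G) (u : G → ℝ) :
    QQ L γ u = (1 / 2) * ∑ i ∈ range L, ∑ i' ∈ range L, ∑ k, (u (k + γ i) - u (k + γ i')) ^ 2 := by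
  have h1 : ∀ i i' : ℕ, ∑ k, (u (k + γ i) - u (k + γ i')) ^ 2
      = 2 * ∑ k, (u k) ^ 2 - 2 * ∑ k, u (k + γ i) * u (k + γ i') := by
    intro i i'
    have e1 : ∑ k, (u (k + γ i)) ^ 2 = ∑ k, (u k) ^ 2 := sum_shift (fun k => (u k) ^ 2) (γ i)
    have e2 : ∑ k, (u (k + γ i')) ^ 2 = ∑ k, (u k) ^ 2 := sum_shift (fun k => (u k) ^ 2) (γ i')
    have : ∀ k, (u (k + γ i) - u (k + γ i')) ^ 2
        = (u (k + γ i)) ^ 2 + (u (k + γ i')) ^ 2 - 2 * (u (k + γ i) * u (k + γ i')) := by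
      intro k; ring
    simp_rw [this]
    rw [Finset.sum_sub_distrib, Finset.sum_add_distrib, e1, e2, ← Finset.mul_sum]
    ring
  have h2 : ∑ k, (∑ i ∈ range L, u (k + γ i)) ^ 2
      = ∑ i ∈ range L, ∑ i' ∈ range L, ∑ k, u (k + γ i) * u (k + γ i') := by
    have : ∀ k, (∑ i ∈ range L, u (k + γ i)) ^ 2
        = ∑ i ∈ range L, ∑ i' ∈ range L, u (k + γ i) * u (k + γ i') := by
      intro k
      rw [pow_two, Finset.sum_mul_sum]
    simp_rw [this]
    rw [Finset.sum_comm]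
    apply Finset.sum_congr rfl
    intro i _
    rw [Finset.sum_comm]
  unfold QQ
  rw [h2]
  simp_rw [h1]
  simp_rw [Finset.sum_sub_distrib, ← Finset.mul_sum]
  rw [Finset.sum_const, Finset.sum_const, card_range, nsmul_eq_mul, nsmul_eq_mul]
  ring

lemma QQ_le (L : ℕ) (γ : ℕ → G) (u : G → ℝ) : QQ L γ u ≤ (L : ℝ) ^ 2 * ∑ k, (u k) ^ 2 := by
  unfold QQ
  have : 0 ≤ ∑ k, (∑ i ∈ range L, u (k + γ i)) ^ 2 := Finset.sum_nonneg fun _ _ => sq_nonneg _
  linarith

lemma sq_add_le (θ a b : ℝ) (hθ : 0 < θ) :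
    (a + b) ^ 2 ≤ (1 + θ) * a ^ 2 + (1 + θ⁻¹) * b ^ 2 := by
  have h1 : 0 ≤ θ⁻¹ * (θ * a - b) ^ 2 := by positivity
  have h2 : θ⁻¹ * (θ * a - b) ^ 2 = θ * a ^ 2 - 2 * (a * b) + θ⁻¹ * b ^ 2 := by
    field_simp
    ring
  rw [h2] at h1
  nlinarith

lemma QQ_add (L : ℕ) (γ : ℕ → G) (u v : G → ℝ) (θ : ℝ) (hθ : 0 < θ) :
    QQ L γ (fun k => u k + v k) ≤ (1 + θ) * QQ L γ u + (1 + θ⁻¹) * QQ L γ v := by
  rw [QQ_eq, QQ_eq, QQ_eq]
  have : ∑ i ∈ range L, ∑ i' ∈ range L, ∑ k, ((u (k + γ i) + v (k + γ i)) - (u (k + γ i') + v (k + γ i'))) ^ 2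
      ≤ ∑ i ∈ range L, ∑ i' ∈ range L, ∑ k, ((1 + θ) * (u (k + γ i) - u (k + γ i')) ^ 2
        + (1 + θ⁻¹) * (v (k + γ i) - v (k + γ i')) ^ 2) := by
    refine Finset.sum_le_sum fun i _ => Finset.sum_le_sum fun i' _ => Finset.sum_le_sum fun k _ => ?_
    have := sq_add_le θ (u (k + γ i) - u (k + γ i')) (v (k + γ i) - v (k + γ i')) hθ
    refine le_trans (le_of_eq ?_) this
    ring
  simp_rw [Finset.sum_add_distrib, ← Finset.mul_sum] at this
  linarith

lemma QQ_shift (L : ℕ) (γ : ℕ → G) (u : G → ℝ) (E : ℝ)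
    (hE : ∀ i ∈ range L, ∑ k, (u (k + γ i) - u k) ^ 2 ≤ E) :
    QQ L γ u ≤ 2 * (L : ℝ) ^ 2 * E := by
  rw [QQ_eq]
  have h1 : ∀ i ∈ range L, ∀ i' ∈ range L, ∑ k, (u (k + γ i) - u (k + γ i')) ^ 2 ≤ 4 * E := by
    intro i hi i' hi'
    calc ∑ k, (u (k + γ i) - u (k + γ i')) ^ 2
        ≤ ∑ k, (2 * (u (k + γ i) - u k) ^ 2 + 2 * (u (k + γ i') - u k) ^ 2) := by
          refine Finset.sum_le_sum fun k _ => ?_
          nlinarith [sq_nonneg ((u (k + γ i) - u k) + (u (k + γ i') - u k))]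
      _ = 2 * ∑ k, (u (k + γ i) - u k) ^ 2 + 2 * ∑ k, (u (k + γ i') - u k) ^ 2 := by
          rw [Finset.sum_add_distrib, ← Finset.mul_sum, ← Finset.mul_sum]
      _ ≤ 4 * E := by
          have := hE i hi
          have := hE i' hi'
          linarith
  have h2 : ∑ i ∈ range L, ∑ i' ∈ range L, ∑ k, (u (k + γ i) - u (k + γ i')) ^ 2
      ≤ ∑ i ∈ range L, ∑ i' ∈ range L, 4 * E :=
    Finset.sum_le_sum fun i hi => Finset.sum_le_sum fun i' hi' => h1 i hi i' hi'
  simp only [Finset.sum_const, card_range, nsmul_eq_mul] at h2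
  nlinarith

end Group

section Shift

variable {F : Finset ℕ} {g : ℕ} {x : ℝ} {T L Mw B : ℕ}

lemma QQ_Rs [NeZero B] (γ : ℕ → ZMod B) :
    QQ L γ (Rf F g x B) = QQ L γ (sf F g x B) := by
  unfold QQ
  rw [sq_Rs, win_corr L γ, win_corr L γ]
  simp_rw [corr_Rs]

lemma sf_window' [NeZero B] (hx0 : 0 < x) (hx1 : x ≤ 1) (hT : ∀ a ∈ F, a ≤ T)
    (hB : (g + 2) * T + 2 * Mw < B) (τ : ℕ → ℕ) (hτ : ∀ i < L, τ i < Mw)
    (hinj : ∀ i < L, ∀ j < L, τ i = τ j → i = j) (W : ℝ)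
    (hW : ∀ y i, (((F.powersetCard (g + 1)).filter
      (fun S => y ≤ ∑ a ∈ S, a + i ∧ ∑ a ∈ S, a + i < y + Mw)).card : ℝ) ≤ W)
    (Z : Finset ℕ) (hZ : Z ∈ F.powersetCard g) (i : ℕ) (hi : i < L) :
    x ^ Mw * ∑ i' ∈ range L, sf F g x B (((∑ a ∈ Z, a : ℕ) : ZMod B)
        + ((τ i' : ZMod B) - (τ i : ZMod B)))
      ≤ W * (x ^ (∑ a ∈ Z, a) * pp F x) := by
  classical
  unfold sf push
  rw [Finset.sum_comm, Finset.sum_product_right, Finset.mul_sum]
  have hZT := sum_le_of_mem hT hZ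
  have hτi := hτ i hi
  have key : ∀ b ∈ F, x ^ Mw * ∑ S ∈ F.powersetCard (g + 1), ∑ i' ∈ range L,
      (if ((∑ a ∈ S, a : ℕ) : ZMod B) - (b : ZMod B)
        = ((∑ a ∈ Z, a : ℕ) : ZMod B) + ((τ i' : ZMod B) - (τ i : ZMod B)) then
        x ^ (∑ a ∈ S, a) * x ^ b else 0) ≤ W * (x ^ (∑ a ∈ Z, a) * x ^ (2 * b)) := by
    intro b hb
    have hbT := hT b hb
    rw [Finset.mul_sum]
    calc ∑ S ∈ F.powersetCard (g + 1), x ^ Mw * ∑ i' ∈ range L,
        (if ((∑ a ∈ S, a : ℕ) : ZMod B) - (b : ZMod B)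
          = ((∑ a ∈ Z, a : ℕ) : ZMod B) + ((τ i' : ZMod B) - (τ i : ZMod B)) then
          x ^ (∑ a ∈ S, a) * x ^ b else 0)
        ≤ ∑ S ∈ F.powersetCard (g + 1),
          (if (∑ a ∈ Z, a + b ≤ ∑ a ∈ S, a + τ i ∧ ∑ a ∈ S, a + τ i < ∑ a ∈ Z, a + b + Mw) then
            x ^ (∑ a ∈ Z, a) * x ^ (2 * b) else 0) := by
          apply Finset.sum_le_sum
          intro S hS
          have hST := sum_le_of_mem hT hS
          have hcond : ∀ i' ∈ range L, (((∑ a ∈ S, a : ℕ) : ZMod B) - (b : ZMod B)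
              = ((∑ a ∈ Z, a : ℕ) : ZMod B) + ((τ i' : ZMod B) - (τ i : ZMod B))) ↔
              (∑ a ∈ S, a + τ i = ∑ a ∈ Z, a + τ i' + b) := by
            intro i' hi'
            rw [Finset.mem_range] at hi'
            have hτi' := hτ i' hi'
            have e : (((∑ a ∈ S, a : ℕ) : ZMod B) - (b : ZMod B)
              = ((∑ a ∈ Z, a : ℕ) : ZMod B) + ((τ i' : ZMod B) - (τ i : ZMod B))) ↔
              (((∑ a ∈ S, a + τ i : ℕ) : ZMod B) = ((∑ a ∈ Z, a + τ i' + b : ℕ) : ZMod B)) := by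
              push_cast
              constructor
              · intro h
                linear_combination h
              · intro h
                linear_combination h
            rw [e]
            apply natCast_inj_of_lt
            · have : (g + 1) * T ≤ (g + 2) * T := Nat.mul_le_mul_right T (by omega)
              omega
            · have : (g + 2) * T = g * T + T + T := by ring
              omega
          split_ifs with hwin
          · -- at most one i'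
            have h1 : ∑ i' ∈ range L,
              (if ((∑ a ∈ S, a : ℕ) : ZMod B) - (b : ZMod B)
                = ((∑ a ∈ Z, a : ℕ) : ZMod B) + ((τ i' : ZMod B) - (τ i : ZMod B)) then
                x ^ (∑ a ∈ S, a) * x ^ b else 0) ≤ x ^ (∑ a ∈ S, a) * x ^ b := by
              rw [← Finset.sum_filter, Finset.sum_const, nsmul_eq_mul]
              have hc : ((range L).filter (fun i' => ((∑ a ∈ S, a : ℕ) : ZMod B) - (b : ZMod B)
                = ((∑ a ∈ Z, a : ℕ) : ZMod B) + ((τ i' : ZMod B) - (τ i : ZMod B)))).card ≤ 1 := by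
                rw [Finset.card_le_one]
                intro p hp q hq
                rw [Finset.mem_filter] at hp hq
                have h1 := (hcond p hp.1).1 hp.2
                have h2 := (hcond q hq.1).1 hq.2
                exact hinj p (Finset.mem_range.1 hp.1) q (Finset.mem_range.1 hq.1) (by omega)
              have hc' : (((range L).filter (fun i' => ((∑ a ∈ S, a : ℕ) : ZMod B) - (b : ZMod B)
                = ((∑ a ∈ Z, a : ℕ) : ZMod B) + ((τ i' : ZMod B) - (τ i : ZMod B)))).card : ℝ)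
                ≤ 1 := by exact_mod_cast hc
              have h0 : 0 ≤ x ^ (∑ a ∈ S, a) * x ^ b := by positivity
              nlinarith
            calc x ^ Mw * _ ≤ x ^ Mw * (x ^ (∑ a ∈ S, a) * x ^ b) :=
                  mul_le_mul_of_nonneg_left h1 (by positivity)
              _ = x ^ (∑ a ∈ S, a + Mw + b) := by
                  rw [← pow_add, ← pow_add]; congr 1; ring
              _ ≤ x ^ (∑ a ∈ Z, a + b + b) := pow_le_pow_of_le_one hx0.le hx1 (by omega)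
              _ = x ^ (∑ a ∈ Z, a) * x ^ (2 * b) := by
                  rw [← pow_add]; congr 1; ring
          · have h1 : ∑ i' ∈ range L,
              (if ((∑ a ∈ S, a : ℕ) : ZMod B) - (b : ZMod B)
                = ((∑ a ∈ Z, a : ℕ) : ZMod B) + ((τ i' : ZMod B) - (τ i : ZMod B)) then
                x ^ (∑ a ∈ S, a) * x ^ b else 0) = 0 := by
              apply Finset.sum_eq_zero
              intro i' hi'
              rw [if_neg]
              intro h
              rw [hcond i' hi'] at h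
              rw [Finset.mem_range] at hi'
              have hτi' := hτ i' hi'
              apply hwin
              omega
            rw [h1, mul_zero]
      _ = ((F.powersetCard (g + 1)).filter (fun S => ∑ a ∈ Z, a + b ≤ ∑ a ∈ S, a + τ i ∧
            ∑ a ∈ S, a + τ i < ∑ a ∈ Z, a + b + Mw)).card * (x ^ (∑ a ∈ Z, a) * x ^ (2 * b)) := by
          rw [← Finset.sum_filter, Finset.sum_const, nsmul_eq_mul]
      _ ≤ W * (x ^ (∑ a ∈ Z, a) * x ^ (2 * b)) := by
          apply mul_le_mul_of_nonneg_right (hW _ _) (by positivity)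
  calc ∑ b ∈ F, x ^ Mw * ∑ S ∈ F.powersetCard (g + 1), ∑ i' ∈ range L,
      (if ((∑ a ∈ S, a : ℕ) : ZMod B) - (b : ZMod B)
        = ((∑ a ∈ Z, a : ℕ) : ZMod B) + ((τ i' : ZMod B) - (τ i : ZMod B)) then
        x ^ (∑ a ∈ S, a) * x ^ b else 0)
      ≤ ∑ b ∈ F, W * (x ^ (∑ a ∈ Z, a) * x ^ (2 * b)) := Finset.sum_le_sum key
    _ = W * (x ^ (∑ a ∈ Z, a) * pp F x) := by
        unfold pp
        rw [Finset.mul_sum, Finset.mul_sum]

/-- the lower bound for the energy of `s` -/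
lemma energy_s' [NeZero B] (hx0 : 0 < x) (hx1 : x ≤ 1) (hT : ∀ a ∈ F, a ≤ T)
    (hB : (g + 2) * T + 2 * Mw < B) (τ : ℕ → ℕ) (hτ : ∀ i < L, τ i < Mw)
    (hinj : ∀ i < L, ∀ j < L, τ i = τ j → i = j) (W : ℝ)
    (hW : ∀ y i, (((F.powersetCard (g + 1)).filter
      (fun S => y ≤ ∑ a ∈ S, a + i ∧ ∑ a ∈ S, a + i < y + Mw)).card : ℝ) ≤ W)
    (hpp : (g : ℝ) ≤ pp F x) :
    x ^ Mw * ((L : ℝ) ^ 2 * ((pp F x - g) ^ 2 * ee F x g))
        - 2 * (L * W * pp F x * ((pp F x - g) * ee F x g))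
      ≤ x ^ Mw * QQ L (fun i => (τ i : ZMod B)) (sf F g x B) := by
  classical
  have hxL : 0 < x ^ Mw := by positivity
  have hpg : 0 ≤ pp F x - g := by linarith
  have ht : ∀ k, 0 ≤ tf F g x B k := by
    intro k
    unfold tf
    apply push_nonneg
    intro Z _
    positivity
  have hu : ∀ k, 0 ≤ sf F g x B k - tf F g x B k := by
    intro k
    have := tf_le_sf (F := F) (g := g) hx0.le hx1 k
    linarith
  have h1 := energy_lower L (fun i => (τ i : ZMod B)) (tf F g x B)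
    (fun k => sf F g x B k - tf F g x B k) ht hu
  simp only [add_sub_cancel] at h1
  -- lower bound for ∑ t^2
  have h2 : (pp F x - g) ^ 2 * ee F x g ≤ ∑ k, (tf F g x B k) ^ 2 := by
    have := sum_push_sq_ge (F.powersetCard g) (fun Z => ((∑ a ∈ Z, a : ℕ) : ZMod B))
      (fun Z => x ^ (∑ a ∈ Z, a) * (pp F x - g)) (fun Z _ => by positivity)
    refine le_trans (le_of_eq ?_) this
    unfold ee
    rw [Finset.mul_sum]
    apply Finset.sum_congr rfl
    intro Z _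
    rw [mul_pow, ← pow_mul]
    ring_nf
  -- upper bound for the cross term
  have h3 : x ^ Mw * ∑ m, tf F g x B m * ∑ i ∈ range L, ∑ i' ∈ range L,
      sf F g x B (m + ((τ i' : ZMod B) - (τ i : ZMod B)))
      ≤ L * W * pp F x * ((pp F x - g) * ee F x g) := by
    unfold tf
    rw [sum_push_mul, Finset.mul_sum]
    calc ∑ Z ∈ F.powersetCard g, x ^ Mw * (x ^ (∑ a ∈ Z, a) * (pp F x - g) *
          ∑ i ∈ range L, ∑ i' ∈ range L,
            sf F g x B (((∑ a ∈ Z, a : ℕ) : ZMod B) + ((τ i' : ZMod B) - (τ i : ZMod B))))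
        ≤ ∑ Z ∈ F.powersetCard g, (x ^ (∑ a ∈ Z, a) * (pp F x - g)) *
          (L * (W * (x ^ (∑ a ∈ Z, a) * pp F x))) := by
          apply Finset.sum_le_sum
          intro Z hZ
          have h4 : x ^ Mw * ∑ i ∈ range L, ∑ i' ∈ range L,
            sf F g x B (((∑ a ∈ Z, a : ℕ) : ZMod B) + ((τ i' : ZMod B) - (τ i : ZMod B)))
            ≤ L * (W * (x ^ (∑ a ∈ Z, a) * pp F x)) := by
            rw [Finset.mul_sum]
            refine (Finset.sum_le_sum (fun i hi =>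
              sf_window' hx0 hx1 hT hB τ hτ hinj W hW Z hZ i (Finset.mem_range.1 hi))).trans
              (le_of_eq ?_)
            rw [Finset.sum_const, card_range, nsmul_eq_mul]
          have h5 : 0 ≤ x ^ (∑ a ∈ Z, a) * (pp F x - g) := by positivity
          have h6 := mul_le_mul_of_nonneg_left h4 h5
          refine le_trans (le_of_eq ?_) h6
          ring
      _ = L * W * pp F x * ((pp F x - g) * ee F x g) := by
          unfold ee
          rw [Finset.mul_sum, Finset.mul_sum]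
          apply Finset.sum_congr rfl
          intro Z _
          rw [mul_comm 2 (∑ a ∈ Z, a), pow_mul]
          ring
  have h6 : x ^ Mw * ((L : ℝ) ^ 2 * ((pp F x - g) ^ 2 * ee F x g))
      ≤ x ^ Mw * ((L : ℝ) ^ 2 * ∑ k, (tf F g x B k) ^ 2) := by
    apply mul_le_mul_of_nonneg_left _ hxL.le
    exact mul_le_mul_of_nonneg_left h2 (by positivity)
  have h7 := mul_le_mul_of_nonneg_left h1 hxL.le
  rw [mul_sub] at h7
  unfold QQ
  linarith

/-- The main inequality. -/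
theorem star' [NeZero B] (hx0 : 0 < x) (hx1 : x ≤ 1) (hT : ∀ a ∈ F, a ≤ T)
    (hB : (g + 2) * T + 2 * Mw < B) (τ : ℕ → ℕ) (hτ : ∀ i < L, τ i < Mw)
    (hinj : ∀ i < L, ∀ j < L, τ i = τ j → i = j) (W η ε : ℝ)
    (hW : ∀ y i, (((F.powersetCard (g + 1)).filter
      (fun S => y ≤ ∑ a ∈ S, a + i ∧ ∑ a ∈ S, a + i < y + Mw)).card : ℝ) ≤ W)
    (hη0 : 0 ≤ η) (hη1 : η ≤ 1) (hη : (g : ℝ) ≤ η * pp F x) (hL : 0 < L)
    (hxL : 1 / 2 ≤ x ^ Mw) (hWε : 4 * W ≤ ε * L) (hε : ε ≤ (1 - η) ^ 2) :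
    (L : ℝ) ^ 2 * ((g + 1 : ℝ) * ((1 - η) ^ 2 - ε) * YY F g x T) ≤
      QQ L (fun i => (τ i : ZMod B)) (Rf F g x B) := by
  have hpp0 : 0 ≤ pp F x := by unfold pp; positivity
  have hpp : (g : ℝ) ≤ pp F x := by nlinarith
  have hee := ee_nonneg F x hx0.le g
  have h1 := energy_s' (F := F) (g := g) (L := L) hx0 hx1 hT hB τ hτ hinj W hW hpp
  rw [← QQ_Rs] at h1
  have hL0 : (0 : ℝ) < L := by exact_mod_cast hL
  have h9 : (g + 1 : ℝ) * YY F g x T ≤ pp F x * (pp F x * ee F x g) := by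
    rw [YY_eq hT]
    have := ee_succ_le F x hx0.le g
    calc (g + 1 : ℝ) * (pp F x * ee F x (g + 1)) = pp F x * ((g + 1 : ℝ) * ee F x (g + 1)) := by ring
      _ ≤ pp F x * (pp F x * ee F x g) := mul_le_mul_of_nonneg_left this hpp0
  have hxL0 : 0 < x ^ Mw := by positivity
  have hW0 : 0 ≤ W := le_trans (Nat.cast_nonneg _) (hW 0 0)
  have h2 := star_alg (pp F x) g (ee F x g) (YY F g x T)
    (QQ L (fun i => (τ i : ZMod B)) (Rf F g x B) / (L : ℝ) ^ 2) 0 (x ^ Mw) L W η ε 0 hpp0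
    (Nat.cast_nonneg _) hee
    (by
      have : (L : ℝ) ^ 2 * (QQ L (fun i => (τ i : ZMod B)) (Rf F g x B) / (L : ℝ) ^ 2) - 0
        = QQ L (fun i => (τ i : ZMod B)) (Rf F g x B) := by
        field_simp
        ring
      rw [this]
      exact h1)
    (by simp) h9 hη0 hη1 hη hL0 hxL0 hxL hWε hε hW0
  rw [sub_zero, le_div_iff₀ (by positivity)] at h2
  linarith

end Shift

end Pool.Agent.H906R3
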