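import Pool.Agent.H906R3.Quad
import Pool.Agent.H396R2.Final3

set_option autoImplicit false

open Finset

namespace Pool.Agent.H906R3

open Pool.Agent.H396R2

lemma sum_zmod {B : ℕ} [NeZero B] (f : ZMod B → ℝ) :
    ∑ k, f k = ∑ n ∈ range B, f (n : ZMod B) := by
  symm
  apply Finset.sum_bij (fun (n : ℕ) _ => (n : ZMod B))
  · intro n _
    exact Finset.mem_univ _
  · intro m hm n hn h
    rw [Finset.mem_range] at hm hn
    exact (natCast_inj_of_lt hm hn).1 h
  · intro k _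
    exact ⟨k.val, Finset.mem_range.2 (ZMod.val_lt k), ZMod.natCast_zmod_val k⟩
  · intro n _
    rfl

/-- transfer of a function on `ℕ` to `ZMod B` -/
def lift (B : ℕ) (u : ℕ → ℝ) : ZMod B → ℝ := fun k => u k.val

lemma lift_natCast {B : ℕ} [NeZero B] (u : ℕ → ℝ) {n : ℕ} (hn : n < B) :
    lift B u (n : ZMod B) = u n := by
  unfold lift
  rw [ZMod.val_natCast, Nat.mod_eq_of_lt hn]

lemma sum_lift_sq {B N : ℕ} [NeZero B] (u : ℕ → ℝ) (hN : N ≤ B) (hu : ∀ n, N ≤ n → u n = 0) :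
    ∑ k, (lift B u k) ^ 2 = ∑ n ∈ range N, (u n) ^ 2 := by
  rw [sum_zmod]
  have h1 : ∑ n ∈ range B, (lift B u (n : ZMod B)) ^ 2 = ∑ n ∈ range B, (u n) ^ 2 := by
    apply Finset.sum_congr rfl
    intro n hn
    rw [lift_natCast u (Finset.mem_range.1 hn)]
  rw [h1]
  symm
  apply Finset.sum_subset (Finset.range_subset_range.2 hN)
  intro n _ hn
  rw [Finset.mem_range, not_lt] at hn
  rw [hu n hn]
  ring

lemma sum_lift_shift {B N τ : ℕ} [NeZero B] (u : ℕ → ℝ) (hN : N + τ ≤ B)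
    (hu : ∀ n, N ≤ n → u n = 0) :
    ∑ k, (lift B u (k + (τ : ZMod B)) - lift B u k) ^ 2
      ≤ ∑ n ∈ range N, (u (n + τ) - u n) ^ 2 + ∑ n ∈ range τ, (u n) ^ 2 := by
  have h0 : ∑ k, (lift B u (k + (τ : ZMod B))) ^ 2 = ∑ k, (lift B u k) ^ 2 :=
    sum_shift (fun k => (lift B u k) ^ 2) (τ : ZMod B)
  have h1 : ∑ k, lift B u k * lift B u (k + (τ : ZMod B)) = ∑ n ∈ range N, u n * u (n + τ) := by
    rw [sum_zmod]
    have : ∑ n ∈ range N, u n * u (n + τ)
        = ∑ n ∈ range N, lift B u (n : ZMod B) * lift B u ((n : ZMod B) + (τ : ZMod B)) := by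
      apply Finset.sum_congr rfl
      intro n hn
      rw [Finset.mem_range] at hn
      rw [lift_natCast u (by omega), ← Nat.cast_add, lift_natCast u (by omega)]
    rw [this]
    symm
    apply Finset.sum_subset (Finset.range_subset_range.2 (by omega))
    intro n hn hn'
    rw [Finset.mem_range] at hn
    rw [Finset.mem_range, not_lt] at hn'
    rw [lift_natCast u hn, hu n hn']
    ring
  have h2 := sum_lift_sq (B := B) u (by omega : N ≤ B) hu
  have h3 : ∑ k, (lift B u (k + (τ : ZMod B)) - lift B u k) ^ 2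
      = 2 * ∑ n ∈ range N, (u n) ^ 2 - 2 * ∑ n ∈ range N, u n * u (n + τ) := by
    rw [← h1, ← h2]
    have : ∀ k : ZMod B, (lift B u (k + (τ : ZMod B)) - lift B u k) ^ 2
        = (lift B u (k + (τ : ZMod B))) ^ 2 + (lift B u k) ^ 2
          - 2 * (lift B u k * lift B u (k + (τ : ZMod B))) := by
      intro k; ring
    simp_rw [this]
    rw [Finset.sum_sub_distrib, Finset.sum_add_distrib, h0, ← Finset.mul_sum]
    ring
  rw [h3]
  have h4 : ∑ n ∈ range N, (u (n + τ) - u n) ^ 2 = ∑ n ∈ range N, (u (n + τ)) ^ 2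
      + ∑ n ∈ range N, (u n) ^ 2 - 2 * ∑ n ∈ range N, u n * u (n + τ) := by
    have : ∀ n, (u (n + τ) - u n) ^ 2 = (u (n + τ)) ^ 2 + (u n) ^ 2 - 2 * (u n * u (n + τ)) := by
      intro n; ring
    simp_rw [this]
    rw [Finset.sum_sub_distrib, Finset.sum_add_distrib, ← Finset.mul_sum]
  rw [h4]
  have h5 : ∑ n ∈ range N, (u n) ^ 2 ≤ ∑ n ∈ range N, (u (n + τ)) ^ 2
      + ∑ n ∈ range τ, (u n) ^ 2 := by
    have h6 : ∑ n ∈ range N, (u (n + τ)) ^ 2 = ∑ n ∈ Finset.Ico τ (N + τ), (u n) ^ 2 := by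
      rw [Finset.sum_Ico_eq_sum_range]
      have : N + τ - τ = N := by omega
      rw [this]
      apply Finset.sum_congr rfl
      intro n _
      rw [add_comm n τ]
    rw [h6, add_comm, Finset.range_eq_Ico, Finset.range_eq_Ico,
      Finset.sum_Ico_consecutive _ (Nat.zero_le _) (by omega)]
    apply Finset.sum_le_sum_of_subset_of_nonneg
    · apply Finset.Ico_subset_Ico_right
      omega
    · intro n _ _
      positivity
  linarith

variable {F : Finset ℕ} {g : ℕ} {x : ℝ} {T L Mw B : ℕ}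

lemma rho_eq_zero (hT : ∀ a ∈ F, a ≤ T) (n : ℕ) (hn : (g + 2) * T + 1 ≤ n) : rho F g n = 0 := by
  unfold rho
  rw [Finset.card_eq_zero, Finset.filter_eq_empty_iff]
  intro ω hω h
  rw [Finset.mem_product] at hω
  have h1 := sum_le_of_mem hT hω.1
  have h2 := hT _ hω.2
  have : (g + 2) * T = (g + 1) * T + T := by ring
  omega

lemma Rf_eq_lift [NeZero B] (hT : ∀ a ∈ F, a ≤ T) (hB : (g + 2) * T < B) :
    Rf F g x B = lift B (fun n => x ^ n * rho F g n) := by
  ext k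
  have h1 := Rf_natCast (x := x) hT hB k.val (ZMod.val_lt k)
  rw [ZMod.natCast_zmod_val] at h1
  rw [h1]
  rfl

/-- geometric tail -/
lemma tail_le (hx0 : 0 < x) (hx1 : x < 1) (hxT : x ^ (2 * (T + 1)) ≤ 1 - x ^ 2) (N : ℕ) :
    ∑ n ∈ Finset.Ico (T + 1) N, x ^ (2 * n) ≤ 1 := by
  have hx2 : 0 < 1 - x ^ 2 := by nlinarith
  rw [Finset.sum_Ico_eq_sum_range]
  have : ∀ j, x ^ (2 * (T + 1 + j)) = x ^ (2 * (T + 1)) * x ^ (2 * j) := by
    intro j
    rw [← pow_add]
    congr 1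
    ring
  simp_rw [this]
  rw [← Finset.mul_sum]
  calc x ^ (2 * (T + 1)) * ∑ i ∈ range (N - (T + 1)), x ^ (2 * i)
      ≤ (1 - x ^ 2) * (1 - x ^ 2)⁻¹ :=
        mul_le_mul hxT (geom_le x hx0 hx1 _) (by positivity) hx2.le
    _ = 1 := mul_inv_cancel₀ hx2.ne'

end Pool.Agent.H906R3
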